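import Pool.Agent.Helper85.Lusin.Defs

open Set TopologicalSpace Filter Topology

namespace Pool.Agent.Helper85.Lusin

variable {X : Type*} [TopologicalSpace X]

/-- Splitting a nonempty open set into infinitely many disjoint nonempty open pieces whose union
is dense in it, one of them inside a given open set that it meets. -/
lemma exists_split [T2Space X] (hinf : ∀ O : Set X, IsOpen O → O.Nonempty → O.Infinite)
    (O B : Set X) (hO : IsOpen O) (hOn : O.Nonempty) (hB : IsOpen B) :
    ∃ S : ℕ → Set X, (∀ i, IsOpen (S i)) ∧ (∀ i, (S i).Nonempty) ∧ (∀ i, S i ⊆ O) ∧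
      (Pairwise fun i j => Disjoint (S i) (S j)) ∧ O ⊆ closure (⋃ i, S i) ∧
      ((O ∩ B).Nonempty → S 0 ⊆ B) := by
  classical
  set B' : Set X := if (O ∩ B).Nonempty then O ∩ B else O with hB'
  have hB'o : IsOpen B' := by
    rw [hB']; split_ifs
    · exact hO.inter hB
    · exact hO
  have hB'n : B'.Nonempty := by
    rw [hB']; split_ifs with h
    · exact h
    · exact hOn
  have hB'O : B' ⊆ O := by
    rw [hB']; split_ifs
    · exact inter_subset_left
    · exact subset_rfl
  have hB'i : Infinite B' := (hinf B' hB'o hB'n).to_subtype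
  obtain ⟨W, hWi, hWo, hWd⟩ := exists_seq_infinite_isOpen_pairwise_disjoint B'
  set W' : ℕ → Set X := fun i => (fun x : B' => (x : X)) '' W i with hW'
  have hW'o : ∀ i, IsOpen (W' i) := fun i => hB'o.isOpenMap_subtype_val _ (hWo i)
  have hW'n : ∀ i, (W' i).Nonempty := fun i => (hWi i).nonempty.image _
  have hW's : ∀ i, W' i ⊆ B' := by
    rintro i _ ⟨x, -, rfl⟩
    exact x.2
  have hW'd : Pairwise fun i j => Disjoint (W' i) (W' j) := by
    intro i j hij
    exact (disjoint_image_iff Subtype.val_injective).2 (hWd hij)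
  set R : Set X := O \ closure (⋃ i, W' i) with hR
  have hRo : IsOpen R := hO.sdiff isClosed_closure
  have hRd : ∀ i, Disjoint (W' i) R := by
    intro i
    rw [disjoint_left]
    intro x hx hxR
    exact hxR.2 (subset_closure (mem_iUnion.2 ⟨i, hx⟩))
  refine ⟨fun i => if i = 1 then W' 1 ∪ R else W' i, ?_, ?_, ?_, ?_, ?_, ?_⟩
  · intro i
    dsimp only
    split_ifs
    · exact (hW'o 1).union hRo
    · exact hW'o i
  · intro i
    dsimp only
    split_ifs
    · exact (hW'n 1).mono subset_union_left
    · exact hW'n i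
  · intro i
    dsimp only
    split_ifs
    · exact union_subset ((hW's 1).trans hB'O) sdiff_subset
    · exact (hW's i).trans hB'O
  · intro i j hij
    dsimp only
    split_ifs with h1 h2 h2
    · exact absurd (h1.trans h2.symm) hij
    · rw [disjoint_union_left]
      exact ⟨hW'd (fun h => h2 h.symm), (hRd j).symm⟩
    · rw [disjoint_union_right]
      exact ⟨hW'd h1, hRd i⟩
    · exact hW'd hij
  · intro x hx
    have hsub : (⋃ i, W' i) ⊆ ⋃ i, (if i = 1 then W' 1 ∪ R else W' i) := by
      refine iUnion_mono fun i => ?_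
      split_ifs with h
      · rw [h]; exact subset_union_left
      · exact subset_rfl
    by_cases hxc : x ∈ closure (⋃ i, W' i)
    · exact closure_mono hsub hxc
    · apply subset_closure
      refine mem_iUnion.2 ⟨1, ?_⟩
      rw [if_pos rfl]
      exact Or.inr ⟨hx, hxc⟩
  · intro h
    dsimp only
    rw [if_neg (by norm_num)]
    refine (hW's 0).trans ?_
    rw [hB', if_pos h]
    exact inter_subset_right

/-- A tree of open sets that forms a pi-base. Lists are read from the right: the list `i :: s`
is the `i`-th successor of `s`. -/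
lemma exists_cells [SecondCountableTopology X] [T2Space X] [Nonempty X]
    (hinf : ∀ O : Set X, IsOpen O → O.Nonempty → O.Infinite) :
    ∃ cell : List ℕ → Set X, cell [] = univ ∧ (∀ s, IsOpen (cell s)) ∧
      (∀ s, (cell s).Nonempty) ∧ (∀ i s, cell (i :: s) ⊆ cell s) ∧
      (∀ i j s, i ≠ j → Disjoint (cell (i :: s)) (cell (j :: s))) ∧
      (∀ s, cell s ⊆ closure (⋃ i, cell (i :: s))) ∧
      (∀ V : Set X, IsOpen V → V.Nonempty → ∃ s, cell s ⊆ V) := by
  classical
  obtain ⟨b, hbc, hbe, hb⟩ := exists_countable_basis X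
  have hbne : b.Nonempty := by
    obtain ⟨x⟩ := ‹Nonempty X›
    obtain ⟨t, ht, -⟩ := hb.exists_subset_of_mem_open (mem_univ x) isOpen_univ
    exact ⟨t, ht⟩
  obtain ⟨B, hB⟩ := hbc.exists_eq_range hbne
  have hBo : ∀ n, IsOpen (B n) := fun n => hb.isOpen (hB ▸ mem_range_self n)
  have hspl : ∀ (O : {O : Set X // IsOpen O ∧ O.Nonempty}) (n : ℕ),
      ∃ S : ℕ → {O : Set X // IsOpen O ∧ O.Nonempty}, (∀ i, (S i).1 ⊆ O.1) ∧
        (Pairwise fun i j => Disjoint (S i).1 (S j).1) ∧ O.1 ⊆ closure (⋃ i, (S i).1) ∧
        ((O.1 ∩ B n).Nonempty → (S 0).1 ⊆ B n) := by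
    intro O n
    obtain ⟨S, h1, h2, h3, h4, h5, h6⟩ := exists_split hinf O.1 (B n) O.2.1 O.2.2 (hBo n)
    exact ⟨fun i => ⟨S i, h1 i, h2 i⟩, h3, h4, h5, h6⟩
  choose spl hs1 hs2 hs3 hs4 using hspl
  let c : List ℕ → {O : Set X // IsOpen O ∧ O.Nonempty} :=
    fun s => List.rec ⟨univ, isOpen_univ, univ_nonempty⟩ (fun i s C => spl C s.length i) s
  have hc : ∀ i s, c (i :: s) = spl (c s) s.length i := fun i s => rfl
  have hmeet : ∀ (n : ℕ) (V : Set X), IsOpen V → V.Nonempty →
      ∃ s, s.length = n ∧ ((c s).1 ∩ V).Nonempty := by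
    intro n
    induction n with
    | zero =>
      intro V _ hVn
      exact ⟨[], rfl, by simpa [c] using hVn⟩
    | succ n ih =>
      intro V hV hVn
      obtain ⟨s, hs, hsV⟩ := ih V hV hVn
      obtain ⟨x, hx1, hx2⟩ := hsV
      have hx3 := hs3 (c s) s.length hx1
      rw [mem_closure_iff] at hx3
      obtain ⟨y, hy1, hy2⟩ := hx3 V hV hx2
      obtain ⟨i, hi⟩ := mem_iUnion.1 hy2
      exact ⟨i :: s, by simp [hs], y, hi, hy1⟩
  refine ⟨fun s => (c s).1, rfl, fun s => (c s).2.1, fun s => (c s).2.2, ?_, ?_, ?_, ?_⟩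
  · intro i s; exact hs1 (c s) s.length i
  · intro i j s hij; exact hs2 (c s) s.length hij
  · intro s; exact hs3 (c s) s.length
  · intro V hV hVn
    obtain ⟨x, hx⟩ := hVn
    obtain ⟨t, ht, hxt, htV⟩ := hb.exists_subset_of_mem_open hx hV
    rw [hB] at ht
    obtain ⟨n, rfl⟩ := ht
    obtain ⟨s, hs, hsB⟩ := hmeet n (B n) (hBo n) ⟨x, hxt⟩
    refine ⟨0 :: s, ?_⟩
    have := hs4 (c s) s.length (by rw [hs]; exact hsB)
    rw [hs] at this
    show (spl (c s) s.length 0).1 ⊆ V
    rw [hs]
    exact this.trans htV

/-- The initial segment of length `n` of `g`, in reversed order. -/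
def pre (g : ℕ → ℕ) : ℕ → List ℕ
  | 0 => []
  | n + 1 => g n :: pre g n

lemma length_pre (g : ℕ → ℕ) (n : ℕ) : (pre g n).length = n := by
  induction n with
  | zero => rfl
  | succ n ih => simp [pre, ih]

/-- A category-preserving coding map: every point `x` gets a sequence `g x` such that for every
family of next-step predictions that is defined on all finite sequences, the points whose sequence
follows the prediction only finitely often form a meager set. -/
theorem exists_coding [SecondCountableTopology X] [T2Space X] [Nonempty X]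
    (hinf : ∀ O : Set X, IsOpen O → O.Nonempty → O.Infinite) :
    ∃ g : X → ℕ → ℕ, (∀ D : Set (ℕ → ℕ), IsNowhereDense D → IsMeagre (g ⁻¹' D)) ∧
      ∀ p : List ℕ → ℕ, IsMeagre {x | ¬ ∀ N, ∃ n, N ≤ n ∧ g x n = p (pre (g x) n)} := by
  classical
  obtain ⟨cell, h0, ho, hn, hsub, hdisj, hdense, hpi⟩ := exists_cells hinf
  -- uniqueness of cells of given length
  have huniq : ∀ s t : List ℕ, s.length = t.length → ∀ x, x ∈ cell s → x ∈ cell t → s = t := by
    intro s
    induction s with
    | nil => intro t ht x _ _; exact (List.length_eq_zero_iff.1 ht.symm).symm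
    | cons i s ih =>
      intro t ht x hx hxt
      cases t with
      | nil => simp at ht
      | cons j t =>
        have hst : s = t := ih t (by simpa using ht) x (hsub _ _ hx) (hsub _ _ hxt)
        subst hst
        by_contra hne
        have hij : i ≠ j := fun h => hne (by rw [h])
        exact (hdisj i j s hij).le_bot ⟨hx, hxt⟩
  -- the coding
  set g : X → ℕ → ℕ := fun x n =>
    if h : ∃ i : ℕ, ∃ s : List ℕ, s.length = n ∧ x ∈ cell (i :: s) then h.choose else 0 with hg
  have hgi : ∀ x i s, x ∈ cell (i :: s) → g x s.length = i := by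
    intro x i s hx
    have hex : ∃ i' : ℕ, ∃ s' : List ℕ, s'.length = s.length ∧ x ∈ cell (i' :: s') :=
      ⟨i, s, rfl, hx⟩
    have h1 : g x s.length = hex.choose := by
      simp only [hg]
      rw [dif_pos hex]
    obtain ⟨s', hs', hx'⟩ := hex.choose_spec
    have h2 := huniq (hex.choose :: s') (i :: s) (by simp [hs']) x hx' hx
    rw [h1]
    exact (List.cons.inj h2).1
  have hpre : ∀ x s, x ∈ cell s → pre (g x) s.length = s := by
    intro x s
    induction s with
    | nil => intro _; rfl
    | cons i s ih =>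
      intro hx
      show g x s.length :: pre (g x) s.length = i :: s
      rw [hgi x i s hx, ih (hsub _ _ hx)]
  refine ⟨g, ?_, ?_⟩
  · -- preimages of nowhere dense sets
    intro D hD
    apply IsNowhereDense.isMeagre
    rw [IsNowhereDense, eq_empty_iff_forall_notMem]
    intro x hx
    obtain ⟨s, hs⟩ := hpi _ isOpen_interior ⟨x, hx⟩
    -- a function extending `s`
    have hext : ∀ s : List ℕ, ∃ f : ℕ → ℕ, pre f s.length = s := by
      intro s
      induction s with
      | nil => exact ⟨0, rfl⟩
      | cons i s ih =>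
        obtain ⟨f, hf⟩ := ih
        refine ⟨fun n => if n = s.length then i else f n, ?_⟩
        have h1 : ∀ m ≤ s.length, pre (fun n => if n = s.length then i else f n) m = pre f m := by
          intro m
          induction m with
          | zero => intro _; rfl
          | succ m ihm =>
            intro hm
            show (if m = s.length then i else f m) :: _ = f m :: _
            rw [if_neg (by omega), ihm (by omega)]
        show (if s.length = s.length then i else f s.length) :: _ = i :: s
        rw [if_pos rfl, h1 _ le_rfl, hf]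
    have hpreo : ∀ s : List ℕ, IsOpen {f : ℕ → ℕ | pre f s.length = s} := by
      intro s
      induction s with
      | nil => simp [pre]
      | cons i s ih =>
        have : {f : ℕ → ℕ | pre f (i :: s).length = i :: s} =
            (fun f : ℕ → ℕ => f s.length) ⁻¹' {i} ∩ {f : ℕ → ℕ | pre f s.length = s} := by
          ext f
          simp [pre]
        rw [this]
        exact ((isOpen_discrete _).preimage (continuous_apply _)).inter ih
    -- find a smaller cell avoiding `closure D`
    obtain ⟨f0, hf0⟩ := hext s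
    have hne : ¬ {f : ℕ → ℕ | pre f s.length = s} ⊆ closure D := by
      intro hsubD
      have : f0 ∈ interior (closure D) := interior_maximal hsubD (hpreo s) hf0
      rw [hD] at this
      exact this
    obtain ⟨f, hf, hfD⟩ := not_subset.1 hne
    obtain ⟨I, u, hu, hIu⟩ := isOpen_pi_iff.1 isClosed_closure.isOpen_compl f hfD
    obtain ⟨m, hm1, hm2⟩ : ∃ m, s.length ≤ m ∧ ∀ i ∈ I, i < m :=
      ⟨max s.length (I.sup id + 1), le_max_left _ _, fun i hi =>
        lt_of_lt_of_le (Nat.lt_succ_of_le (Finset.le_sup (f := id) hi)) (le_max_right _ _)⟩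
    have hcyl : ∀ f' : ℕ → ℕ, pre f' m = pre f m → f' ∉ closure D := by
      intro f' hf'
      have heq : ∀ l ≤ m, pre f' l = pre f l → ∀ i < l, f' i = f i := by
        intro l
        induction l with
        | zero => intro _ _ i hi; omega
        | succ l ihl =>
          intro hl h i hi
          have h' : f' l :: pre f' l = f l :: pre f l := h
          rcases Nat.lt_succ_iff_lt_or_eq.1 hi with h1 | h1
          · exact ihl (by omega) (List.cons.inj h').2 i h1
          · subst h1; exact (List.cons.inj h').1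
      apply hIu
      intro i hi
      rw [heq m le_rfl hf' i (hm2 i hi)]
      exact (hu i hi).2
    have hcells : ∀ l, s.length ≤ l → cell (pre f l) ⊆ cell s := by
      intro l hl
      induction l, hl using Nat.le_induction with
      | base => rw [hf]
      | succ l hl ihl => exact (hsub _ _).trans ihl
    have hsubs : cell (pre f m) ⊆ closure (g ⁻¹' D) :=
      (hcells m hm1).trans (hs.trans interior_subset)
    obtain ⟨y, hy⟩ := hn (pre f m)
    obtain ⟨z, hz1, hz2⟩ := mem_closure_iff.1 (hsubs hy) _ (ho _) hy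
    have hz3 : pre (g z) m = pre f m := by
      have := hpre z (pre f m) hz1
      rwa [length_pre] at this
    exact hcyl (g z) hz3 (subset_closure hz2)
  · -- predictions
    intro p
    have hG : ∀ N : ℕ, IsNowhereDense {x | ¬ ∃ n, N ≤ n ∧ g x n = p (pre (g x) n)} := by
      intro N
      have hopen : IsOpen (⋃ s ∈ {s : List ℕ | N ≤ s.length}, cell (p s :: s)) :=
        isOpen_biUnion fun s _ => ho _
      have hsubset : {x | ¬ ∃ n, N ≤ n ∧ g x n = p (pre (g x) n)} ⊆
          (⋃ s ∈ {s : List ℕ | N ≤ s.length}, cell (p s :: s))ᶜ := by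
        intro x hx hx'
        apply hx
        simp only [mem_iUnion] at hx'
        obtain ⟨s, hs, hxs⟩ := hx'
        refine ⟨s.length, hs, ?_⟩
        rw [hgi x _ s hxs, hpre x s (hsub _ _ hxs)]
      refine IsNowhereDense.mono hsubset ?_
      rw [hopen.isClosed_compl.isNowhereDense_iff, eq_empty_iff_forall_notMem]
      intro x hx
      obtain ⟨s, hs⟩ := hpi _ isOpen_interior ⟨x, hx⟩
      -- extend `s` to length at least `N`
      have hlong : ∀ k : ℕ, ∃ t : List ℕ, k ≤ t.length ∧ cell t ⊆ cell s := by
        intro k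
        induction k with
        | zero => exact ⟨s, Nat.zero_le _, subset_rfl⟩
        | succ k ih =>
          obtain ⟨t, ht, hts⟩ := ih
          exact ⟨0 :: t, by simp; omega, (hsub _ _).trans hts⟩
      obtain ⟨t, ht, hts⟩ := hlong N
      obtain ⟨y, hy⟩ := hn (p t :: t)
      have hy2 : y ∈ interior (⋃ s ∈ {s : List ℕ | N ≤ s.length}, cell (p s :: s))ᶜ :=
        hs (hts (hsub _ _ hy))
      exact interior_subset hy2 (mem_biUnion (show t ∈ {s : List ℕ | N ≤ s.length} from ht) hy)
    have : {x | ¬ ∀ N, ∃ n, N ≤ n ∧ g x n = p (pre (g x) n)} =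
        ⋃ N, {x | ¬ ∃ n, N ≤ n ∧ g x n = p (pre (g x) n)} := by
      ext x; simp
    rw [this]
    exact isMeagre_iUnion fun N => (hG N).isMeagre

end Pool.Agent.Helper85.Lusin
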