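import Pool.Agent.Helper85.Lusin.Cells

open Set TopologicalSpace Filter Topology

namespace Pool.Agent.Helper85.Lusin

section Run

variable {Z : Type*}

open Classical in
/-- One refinement step of an index `c`, following the list `l`. -/
noncomputable def stepf (b : ℕ → Set Z) (l : List ℕ) (c : ℕ) : ℕ :=
  if b (l.getD c c) ⊆ b c then l.getD c c else c

lemma stepf_sub (b : ℕ → Set Z) (l : List ℕ) (c : ℕ) : b (stepf b l c) ⊆ b c := by
  unfold stepf
  split_ifs with h
  · exact h
  · exact subset_rfl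

/-- Refinement of the index `c` along the codes `z a, ..., z (a + m - 1)`. -/
noncomputable def run (b : ℕ → Set Z) (z : ℕ → ℕ) (a : ℕ) : ℕ → ℕ → ℕ
  | 0, c => c
  | m + 1, c => stepf b (Denumerable.ofNat (List ℕ) (z (a + m))) (run b z a m c)

lemma run_anti (b : ℕ → Set Z) (z : ℕ → ℕ) (a c : ℕ) {m m' : ℕ} (h : m ≤ m') :
    b (run b z a m' c) ⊆ b (run b z a m c) := by
  induction m', h using Nat.le_induction with
  | base => exact subset_rfl
  | succ l hl ih => exact (stepf_sub b _ _).trans ih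

lemma run_congr (b : ℕ → Set Z) {z z' : ℕ → ℕ} {a m : ℕ} (c : ℕ)
    (h : ∀ i, i < a + m → z i = z' i) : run b z a m c = run b z' a m c := by
  induction m with
  | zero => rfl
  | succ m ih =>
    show stepf b _ _ = stepf b _ _
    rw [ih fun i hi => h i (by omega), h (a + m) (by omega)]

lemma run_good (b : ℕ → Set Z) (z f : ℕ → ℕ) {M : Set Z} (hf : ∀ n, b (f n) ⊆ b n \ M)
    {a m c l : ℕ} (hz : Denumerable.ofNat (List ℕ) (z (a + m)) = (List.range l).map f)
    (hl : run b z a m c < l) : b (run b z a (m + 1) c) ⊆ Mᶜ := by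
  have h1 : run b z a (m + 1) c = f (run b z a m c) := by
    show stepf b _ _ = _
    rw [hz]
    have h2 : ((List.range l).map f).getD (run b z a m c) (run b z a m c)
        = f (run b z a m c) := by
      rw [List.getD_eq_getElem _ _ (by simpa using hl)]
      simp
    unfold stepf
    rw [h2, if_pos ((hf _).trans sdiff_subset)]
  rw [h1]
  exact (hf _).trans fun x hx => hx.2

/-- A bound for all indices reachable from the codes stored in the (reversed) list `s`. -/
noncomputable def reach (b : ℕ → Set Z) (s : List ℕ) : ℕ :=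
  1 + (Finset.range (s.length + 1)).sup fun a =>
    (Finset.range (a + 1)).sup fun c =>
      run b (fun i => s.reverse.getD i 0) a (s.length - a) c

lemma pre_getD (z : ℕ → ℕ) (n i : ℕ) (hi : i < n) : (pre z n).reverse.getD i 0 = z i := by
  induction n with
  | zero => omega
  | succ n ih =>
    have hlen : (pre z n).reverse.length = n := by rw [List.length_reverse, length_pre]
    show ((z n :: pre z n).reverse).getD i 0 = z i
    rw [List.reverse_cons]
    rcases Nat.lt_succ_iff_lt_or_eq.1 hi with h | h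
    · rw [List.getD_append _ _ _ _ (by rw [hlen]; exact h)]
      exact ih h
    · subst h
      rw [List.getD_append_right _ _ _ _ (by rw [hlen]), hlen]
      simp

lemma run_lt_reach (b : ℕ → Set Z) (z : ℕ → ℕ) {n a c : ℕ} (ha : a ≤ n) (hc : c ≤ a) :
    run b z a (n - a) c < reach b (pre z n) := by
  have h1 : run b z a (n - a) c =
      run b (fun i => (pre z n).reverse.getD i 0) a ((pre z n).length - a) c := by
    rw [length_pre]
    exact run_congr b c fun i hi => (pre_getD z n i (by omega)).symm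
  rw [h1]
  unfold reach
  rw [Nat.lt_one_add_iff]
  refine le_trans ?_ (Finset.le_sup (f := fun a => (Finset.range (a + 1)).sup fun c =>
      run b (fun i => (pre z n).reverse.getD i 0) a ((pre z n).length - a) c)
    (Finset.mem_range.2 (show a < (pre z n).length + 1 by rw [length_pre]; omega)))
  exact Finset.le_sup (f := fun c =>
      run b (fun i => (pre z n).reverse.getD i 0) a ((pre z n).length - a) c)
    (Finset.mem_range.2 (show c < a + 1 by omega))

/-- The member of the cofinal family given by `z`, `d` and `n0`. -/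
def Mem (b : ℕ → Set Z) (z d : ℕ → ℕ) (n0 : ℕ) : Set Z :=
  (⋃ n, b (run b z (max n n0) (d (max n n0) - max n n0) n))ᶜ

lemma subset_Mem (b : ℕ → Set Z) (z d f : ℕ → ℕ) (n0 : ℕ) {M : Set Z}
    (hf : ∀ n, b (f n) ⊆ b n \ M)
    (h : ∀ n, n0 ≤ n → ∃ j, n ≤ j ∧ j < d n ∧
      z j = Encodable.encode ((List.range (reach b (pre z j))).map f)) :
    M ⊆ Mem b z d n0 := by
  intro x hx hxU
  obtain ⟨n, hn⟩ := mem_iUnion.1 hxU
  obtain ⟨j, hj1, hj2, hj3⟩ := h (max n n0) (le_max_right _ _)
  set q := max n n0 with hq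
  have hlt : run b z q (j - q) n < reach b (pre z j) := run_lt_reach b z hj1 (le_max_left _ _)
  have hz : Denumerable.ofNat (List ℕ) (z (q + (j - q))) =
      (List.range (reach b (pre z j))).map f := by
    rw [show q + (j - q) = j by omega, hj3]
    exact Denumerable.ofNat_encode _
  have h1 := run_good b z f hf hz hlt
  have h2 : b (run b z q (d q - q) n) ⊆ b (run b z q (j - q + 1) n) :=
    run_anti b z q n (by omega)
  exact h1 (h2 hn) hx

end Run

variable {Z : Type*} [TopologicalSpace Z]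

lemma isClosed_Mem {b : ℕ → Set Z} (hb : ∀ n, IsOpen (b n)) (z d : ℕ → ℕ) (n0 : ℕ) :
    IsClosed (Mem b z d n0) :=
  (isOpen_iUnion fun n => hb _).isClosed_compl

lemma isNowhereDense_Mem {b : ℕ → Set Z} (hb : ∀ n, IsOpen (b n)) (hbn : ∀ n, (b n).Nonempty)
    (hpi : ∀ V : Set Z, IsOpen V → V.Nonempty → ∃ n, b n ⊆ V) (z d : ℕ → ℕ) (n0 : ℕ) :
    IsNowhereDense (Mem b z d n0) := by
  rw [(isClosed_Mem hb z d n0).isNowhereDense_iff, eq_empty_iff_forall_notMem]
  intro x hx
  obtain ⟨n, hn⟩ := hpi _ isOpen_interior ⟨x, hx⟩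
  obtain ⟨y, hy⟩ := hbn (run b z (max n n0) (d (max n n0) - max n n0) n)
  have hy1 : y ∈ b n := run_anti b z (max n n0) n (Nat.zero_le _) hy
  exact interior_subset (hn hy1) (mem_iUnion.2 ⟨n, hy⟩)

lemma exists_enum_basis (Z : Type*) [TopologicalSpace Z] [SecondCountableTopology Z]
    [Nonempty Z] : ∃ b : ℕ → Set Z, (∀ n, IsOpen (b n)) ∧ (∀ n, (b n).Nonempty) ∧
      ∀ V : Set Z, IsOpen V → V.Nonempty → ∃ n, b n ⊆ V := by
  obtain ⟨B, hBc, hBe, hB⟩ := exists_countable_basis Z
  have hBne : B.Nonempty := by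
    obtain ⟨x⟩ := ‹Nonempty Z›
    obtain ⟨t, ht, -⟩ := hB.exists_subset_of_mem_open (mem_univ x) isOpen_univ
    exact ⟨t, ht⟩
  obtain ⟨b, hb⟩ := hBc.exists_eq_range hBne
  refine ⟨b, fun n => hB.isOpen (hb ▸ mem_range_self n), ?_, ?_⟩
  · intro n
    rw [nonempty_iff_ne_empty]
    intro h0
    exact hBe (by rw [hb, ← h0]; exact mem_range_self n)
  · rintro V hV ⟨x, hx⟩
    obtain ⟨t, ht, -, htV⟩ := hB.exists_subset_of_mem_open hx hV
    rw [hb] at ht
    obtain ⟨n, rfl⟩ := ht
    exact ⟨n, htV⟩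

/-- The family `Mem b (g x) d n0` is cofinal in the closed nowhere dense sets: for a given closed
nowhere dense set all but meagerly many `x` work, with some `d` from a dominating family. -/
theorem captured {X : Type*} [TopologicalSpace X] {g : X → ℕ → ℕ}
    (hg : ∀ p : List ℕ → ℕ, IsMeagre {x | ¬ ∀ N, ∃ n, N ≤ n ∧ g x n = p (pre (g x) n)})
    {b : ℕ → Set Z} (hbo : ∀ n, IsOpen (b n)) (hbn : ∀ n, (b n).Nonempty)
    (hpi : ∀ V : Set Z, IsOpen V → V.Nonempty → ∃ n, b n ⊆ V)
    {W : Type*} {d : W → ℕ → ℕ} (hd : ∀ h : ℕ → ℕ, ∃ w, ∀ᶠ n in atTop, h n ≤ d w n)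
    {M : Set Z} (hM : IsClosed M) (hMn : IsNowhereDense M) :
    IsMeagre {x | ¬ ∃ w n0, M ⊆ Mem b (g x) (d w) n0} := by
  have h1 : ∀ n, ∃ m, b m ⊆ b n \ M := by
    intro n
    apply hpi _ ((hbo n).sdiff hM)
    by_contra hcon
    rw [not_nonempty_iff_eq_empty, sdiff_eq_empty] at hcon
    have h2 : b n ⊆ interior M := interior_maximal hcon (hbo n)
    rw [hM.isNowhereDense_iff] at hMn
    rw [hMn] at h2
    obtain ⟨y, hy⟩ := hbn n
    exact h2 hy
  choose f hf using h1
  refine IsMeagre.mono ?_ (hg fun s => Encodable.encode ((List.range (reach b s)).map f))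
  intro x hx hx'
  apply hx
  choose j hj1 hj2 using hx'
  obtain ⟨w, hw⟩ := hd fun n => j n + 1
  obtain ⟨n0, hn0⟩ := eventually_atTop.1 hw
  exact ⟨w, n0, subset_Mem b (g x) (d w) f n0 hf fun n hn => ⟨j n, hj1 n, hn0 n hn, hj2 n⟩⟩

end Pool.Agent.Helper85.Lusin
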