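import Pool.Agent.Helper85.Lusin.Defs

open Set TopologicalSpace Filter Topology

namespace Pool.Agent.Helper85.Lusin

variable {X : Type*} [TopologicalSpace X]

/-- A tube lemma: if no tuple with one coordinate equal to `a` and the others in the finite set
`F` lies in the closed set `M`, then the same holds for tuples close to these. -/
lemma exists_box {k : ℕ} {M : Set (Fin k → X)} (hM : IsClosed M) (F : Finset X) (a : X)
    (h : ∀ (i : Fin k) (g : Fin k → X), (∀ j, j ≠ i → g j ∈ F) → g i = a → g ∉ M) :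
    ∃ A N : Set X, IsOpen A ∧ IsOpen N ∧ a ∈ A ∧ (F : Set X) ⊆ N ∧
      ∀ x ∈ M, ∀ i, x i ∈ A → ¬ ∀ j, j ≠ i → x j ∈ N := by
  classical
  have hu : ∀ g : Fin k → X, ∃ u : Fin k → Set X,
      (∀ i, IsOpen (u i) ∧ g i ∈ u i) ∧ (g ∉ M → univ.pi u ⊆ Mᶜ) := by
    intro g
    by_cases hg : g ∈ M
    · exact ⟨fun _ => univ, fun i => ⟨isOpen_univ, mem_univ _⟩, fun h => absurd hg h⟩
    · obtain ⟨u, hu1, hu2⟩ := isOpen_pi_iff'.1 hM.isOpen_compl g hg
      exact ⟨u, hu1, fun _ => hu2⟩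
  choose u hu1 hu2 using hu
  set G : Finset (Fin k → X) := Fintype.piFinset (fun _ => insert a F) with hG
  set N : X → Set X := fun p => ⋂ g ∈ G, ⋂ j : Fin k, ⋂ (_ : g j = p), u g j with hN
  have hNo : ∀ p, IsOpen (N p) := by
    intro p
    refine isOpen_biInter_finset fun g _ => isOpen_iInter_of_finite fun j =>
      isOpen_iInter_of_finite fun _ => (hu1 g j).1
  have hNp : ∀ p, p ∈ N p := by
    intro p
    simp only [hN, mem_iInter]
    intro g _ j hj
    have := (hu1 g j).2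
    rwa [hj] at this
  refine ⟨N a, ⋃ f ∈ F, N f, hNo a, isOpen_biUnion fun f _ => hNo f, hNp a, ?_, ?_⟩
  · intro f hf
    simp only [mem_iUnion]
    exact ⟨f, hf, hNp f⟩
  · intro x hx i hi hj
    have : ∀ j : Fin k, ∃ f : X, (j ≠ i → f ∈ F) ∧ (j = i → f = a) ∧ x j ∈ N f := by
      intro j
      by_cases hji : j = i
      · subst hji
        exact ⟨a, fun h => absurd rfl h, fun _ => rfl, hi⟩
      · have := hj j hji
        simp only [mem_iUnion] at this
        obtain ⟨f, hf, hfx⟩ := this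
        exact ⟨f, fun _ => hf, fun h => absurd h hji, hfx⟩
    choose g hg1 hg2 hg3 using this
    have hgM : g ∉ M := h i g hg1 (hg2 i rfl)
    have hgG : g ∈ G := by
      rw [hG, Fintype.mem_piFinset]
      intro j
      by_cases hji : j = i
      · rw [hg2 j hji]; exact Finset.mem_insert_self _ _
      · exact Finset.mem_insert_of_mem (hg1 j hji)
    refine hu2 g hgM ?_ hx
    intro j _
    have := hg3 j
    simp only [hN, mem_iInter] at this
    exact this g hgG j rfl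

/-- The invariant of the construction. -/
def Inv {k : ℕ} (M : Set (Fin k → X)) (F N0 : Set X) (p : Set X × Set X) : Prop :=
  IsOpen p.1 ∧ IsOpen p.2 ∧ F ⊆ p.2 ∧ p.1 ⊆ N0 ∧ p.2 ⊆ N0 ∧
    ∀ x ∈ M, (∀ i, x i ∈ p.1 ∪ p.2) → ∀ i, x i ∉ p.1

lemma inv_step {k : ℕ} {M : Set (Fin k → X)} (hM : IsClosed M)
    (hsep : ∀ a : X, ∃ A, IsOpen A ∧ a ∈ A ∧ ∀ x ∈ M, ∀ i j, x i ∈ A → x j ∈ A → i = j)
    (hslice : ∀ i (g : Fin k → X), {a | Function.update g i a ∈ M}.Countable)
    (hunc : ∀ O : Set X, IsOpen O → O.Nonempty → ¬ O.Countable)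
    {F : Finset X} {N0 : Set X} {p : Set X × Set X} (hp : Inv M F N0 p) (O : Set X)
    (hO : IsOpen O) (hFO : ((F : Set X) ∩ O).Nonempty) :
    ∃ q, Inv M F N0 q ∧ p.1 ⊆ q.1 ∧ (q.1 ∩ O).Nonempty := by
  classical
  obtain ⟨f0, hf0F, hf0O⟩ := hFO
  obtain ⟨h1, h2, h3, h4, h5, h6⟩ := hp
  set bad : Set X := ⋃ i : Fin k, ⋃ g ∈ Fintype.piFinset (fun _ : Fin k => F),
    {a | Function.update g i a ∈ M} with hbad
  have hbadc : bad.Countable := by
    refine countable_iUnion fun i => ?_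
    exact (Finset.countable_toSet _).biUnion fun g _ => hslice i g
  have hne : ((O ∩ p.2) \ bad).Nonempty := by
    by_contra hcon
    rw [not_nonempty_iff_eq_empty, sdiff_eq_empty] at hcon
    exact hunc (O ∩ p.2) (hO.inter h2) ⟨f0, hf0O, h3 hf0F⟩ (hbadc.mono hcon)
  obtain ⟨a, ⟨haO, hap⟩, habad⟩ := hne
  have hbox : ∀ (i : Fin k) (g : Fin k → X), (∀ j, j ≠ i → g j ∈ F) → g i = a → g ∉ M := by
    intro i g hg hgi hgM
    apply habad
    simp only [hbad, mem_iUnion]
    refine ⟨i, Function.update g i f0, ?_, ?_⟩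
    · rw [Fintype.mem_piFinset]
      intro j
      by_cases hji : j = i
      · subst hji
        simpa using hf0F
      · rw [Function.update_of_ne hji]
        exact hg j hji
    · simp only [mem_ofPred_eq, Function.update_idem]
      rw [← hgi, Function.update_eq_self]
      exact hgM
  obtain ⟨A, N, hA, hN, haA, hFN, hAN⟩ := exists_box hM F a hbox
  obtain ⟨A', hA', haA', hsepA'⟩ := hsep a
  refine ⟨(p.1 ∪ (A ∩ A' ∩ (O ∩ p.2)), p.2 ∩ N), ⟨?_, ?_, ?_, ?_, ?_, ?_⟩, subset_union_left, ?_⟩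
  · exact h1.union ((hA.inter hA').inter (hO.inter h2))
  · exact h2.inter hN
  · exact subset_inter h3 hFN
  · exact union_subset h4 (inter_subset_right.trans (inter_subset_right.trans h5))
  · exact inter_subset_left.trans h5
  · intro x hx hall i hi
    have hall' : ∀ i, x i ∈ p.1 ∪ p.2 := by
      intro i
      rcases hall i with hh | hh
      · rcases hh with hh | hh
        · exact Or.inl hh
        · exact Or.inr hh.2.2
      · exact Or.inr hh.1
    have hnot := h6 x hx hall'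
    rcases hi with hi | hi
    · exact hnot i hi
    · refine hAN x hx i hi.1.1 ?_
      intro j hji
      rcases hall j with hh | hh
      · rcases hh with hh | hh
        · exact absurd hh (hnot j)
        · exact absurd (hsepA' x hx j i hh.1.2 hi.1.2) hji
      · exact hh.2
  · exact ⟨a, Or.inr ⟨⟨haA, haA'⟩, haO, hap⟩, haO⟩

/-- The construction of an open set that accumulates to `F` and contains no tuple of `M`. -/
lemma exists_open {k : ℕ} [SecondCountableTopology X] {M : Set (Fin (k + 1) → X)}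
    (hM : IsClosed M)
    (hsep : ∀ a : X, ∃ A, IsOpen A ∧ a ∈ A ∧ ∀ x ∈ M, ∀ i j, x i ∈ A → x j ∈ A → i = j)
    (hslice : ∀ i (g : Fin (k + 1) → X), {a | Function.update g i a ∈ M}.Countable)
    (hunc : ∀ O : Set X, IsOpen O → O.Nonempty → ¬ O.Countable)
    (F : Finset X) {N0 : Set X} (hN0 : IsOpen N0) (hFN0 : (F : Set X) ⊆ N0) :
    ∃ U : Set X, IsOpen U ∧ (F : Set X) ⊆ closure U ∧ U ⊆ N0 ∧ ∀ x ∈ M, ∃ i, x i ∉ U := by
  classical
  obtain ⟨b, hbc, -, hb⟩ := exists_countable_basis X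
  rcases b.eq_empty_or_nonempty with hbe | hbne
  · -- no open sets, the space is empty
    have hX : IsEmpty X := by
      refine ⟨fun x => ?_⟩
      obtain ⟨t, ht, -⟩ := hb.exists_subset_of_mem_open (mem_univ x) isOpen_univ
      rw [hbe] at ht
      exact ht
    exact ⟨∅, isOpen_empty, fun x _ => (hX.false x).elim, empty_subset _,
      fun x _ => (hX.false (x 0)).elim⟩
  obtain ⟨O, hO⟩ := hbc.exists_eq_range hbne
  have hOo : ∀ n, IsOpen (O n) := fun n => hb.isOpen (hO ▸ mem_range_self n)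
  have hstep : ∀ (n : ℕ) (p : {p : Set X × Set X // Inv M F N0 p}),
      ∃ q : {p : Set X × Set X // Inv M F N0 p},
        p.1.1 ⊆ q.1.1 ∧ (((F : Set X) ∩ O n).Nonempty → (q.1.1 ∩ O n).Nonempty) := by
    intro n p
    by_cases hn : ((F : Set X) ∩ O n).Nonempty
    · obtain ⟨q, hq, hq1, hq2⟩ := inv_step hM hsep hslice hunc p.2 (O n) (hOo n) hn
      exact ⟨⟨q, hq⟩, hq1, fun _ => hq2⟩
    · exact ⟨p, subset_rfl, fun h => absurd h hn⟩
  choose nxt hnxt1 hnxt2 using hstep
  have h0 : Inv M F N0 (∅, N0) :=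
    ⟨isOpen_empty, hN0, hFN0, empty_subset _, subset_rfl, fun _ _ _ _ h => h⟩
  let p : ℕ → {p : Set X × Set X // Inv M F N0 p} :=
    fun n => Nat.rec ⟨(∅, N0), h0⟩ (fun m q => nxt m q) n
  have hps : ∀ n, p (n + 1) = nxt n (p n) := fun n => rfl
  have hmono : Monotone fun n => (p n).1.1 :=
    monotone_nat_of_le_succ fun n => by
      show (p n).1.1 ⊆ (p (n + 1)).1.1
      rw [hps]; exact hnxt1 n (p n)
  refine ⟨⋃ n, (p n).1.1, isOpen_iUnion fun n => (p n).2.1, ?_, ?_, ?_⟩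
  · intro f hf
    rw [mem_closure_iff_nhds]
    intro t ht
    obtain ⟨o, ho, hfo, hot⟩ := hb.mem_nhds_iff.1 ht
    rw [hO] at ho
    obtain ⟨n, rfl⟩ := ho
    obtain ⟨y, hy1, hy2⟩ := hnxt2 n (p n) ⟨f, hf, hfo⟩
    exact ⟨y, hot hy2, mem_iUnion.2 ⟨n + 1, by rw [hps]; exact hy1⟩⟩
  · exact iUnion_subset fun n => (p n).2.2.2.2.1
  · intro x hx
    by_contra hcon
    push Not at hcon
    have : ∀ i, ∃ n, x i ∈ (p n).1.1 := fun i => mem_iUnion.1 (hcon i)
    choose n hn using this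
    obtain ⟨m, hm⟩ : ∃ m, ∀ i, n i ≤ m := ⟨Finset.univ.sup n, fun i => Finset.le_sup (Finset.mem_univ i)⟩
    have hall : ∀ i, x i ∈ (p m).1.1 := fun i => hmono (hm i) (hn i)
    exact (p m).2.2.2.2.2.2 x hx (fun i => Or.inl (hall i)) 0 (hall 0)

/-- The core lemma: in a `K_Omega`-Lindelof space in which nonempty open sets are uncountable
and boundaries of open sets are countable, a closed set of tuples all of whose one-dimensional
slices are countable (and which is locally separated) is met by a countable set of points. -/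
theorem core {k : ℕ} [SecondCountableTopology X] [T2Space X] {M : Set (Fin (k + 1) → X)}
    (hKL : KOmegaLindelof X)
    (hbd : ∀ U : Set X, IsOpen U → (frontier U).Countable)
    (hM : IsClosed M)
    (hsep : ∀ a : X, ∃ A, IsOpen A ∧ a ∈ A ∧ ∀ x ∈ M, ∀ i j, x i ∈ A → x j ∈ A → i = j)
    (hslice : ∀ i (g : Fin (k + 1) → X), {a | Function.update g i a ∈ M}.Countable)
    (hunc : ∀ O : Set X, IsOpen O → O.Nonempty → ¬ O.Countable) :
    ∃ C : Set X, C.Countable ∧ ∀ x ∈ M, ∃ i, x i ∈ C := by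
  classical
  rcases isEmpty_or_nonempty X with hX | hX
  · exact ⟨∅, countable_empty, fun x _ => (hX.false (x 0)).elim⟩
  have hfin : ∀ F : Set X, F.Finite → ∃ U : Set X,
      (IsOpen U ∧ ¬ Dense U ∧ ∀ x ∈ M, ∃ i, x i ∉ U) ∧ F ⊆ closure U := by
    intro F hF
    obtain ⟨q, hq⟩ : ∃ q, q ∉ F := by
      by_contra hcon
      push Not at hcon
      refine hunc univ isOpen_univ univ_nonempty (hF.countable.mono fun x _ => hcon x)
    obtain ⟨N0, V, hN0, hV, hFN0, hqV, hdisj⟩ := hF.isCompact.separation_of_notMem hq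
    have hF' : ((hF.toFinset : Finset X) : Set X) ⊆ N0 := by simpa using hFN0
    obtain ⟨U, hU, hFU, hUN0, hUM⟩ := exists_open hM hsep hslice hunc hF.toFinset hN0 hF'
    refine ⟨U, ⟨hU, ?_, hUM⟩, by simpa using hFU⟩
    intro hd
    obtain ⟨y, hyV, hyU⟩ := hd.inter_open_nonempty V hV ⟨q, hqV⟩
    exact hdisj.le_bot ⟨hUN0 hyU, hyV⟩
  obtain ⟨𝒱, hsub, hcount, -, -, -, hfinV⟩ := hKL
    {U | IsOpen U ∧ ¬ Dense U ∧ ∀ x ∈ M, ∃ i, x i ∉ U}
    ⟨fun U hU => hU.1, by
      rw [eq_univ_iff_forall]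
      intro x
      obtain ⟨U, hU, hxU⟩ := hfin {x} (finite_singleton x)
      exact mem_biUnion hU (hxU rfl), fun U hU => hU.2.1, fun F hF => hfin F hF⟩
  refine ⟨⋃ U ∈ 𝒱, frontier U, hcount.biUnion fun U hU => hbd U (hsub hU).1, ?_⟩
  intro x hx
  obtain ⟨U, hU, hxU⟩ := hfinV (range x) (finite_range x)
  obtain ⟨i, hi⟩ := (hsub hU).2.2 x hx
  refine ⟨i, mem_biUnion hU ?_⟩
  rw [(hsub hU).1.frontier_eq]
  exact ⟨hxU (mem_range_self i), hi⟩

end Pool.Agent.Helper85.Lusin
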