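import Pool.Agent.Helper85.Lusin.Core

open Set TopologicalSpace Filter Topology

namespace Pool.Agent.Helper85.Lusin

variable {X : Type*} [TopologicalSpace X]

lemma inv_stepB {k : ℕ} {M : Set (Fin k → X)} (hM : IsClosed M) {C0 : Set X}
    (hsep : ∀ a : X, ∃ A, IsOpen A ∧ a ∈ A ∧ ∀ x ∈ M, ∀ i j, x i ∈ A → x j ∈ A → i = j)
    (hslice : ∀ i (g : Fin k → X), {a | Function.update g i a ∈ M}.Countable)
    (hunc : ∀ O : Set X, IsOpen O → (O \ C0).Nonempty → ¬ O.Countable)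
    {F : Finset X} (hF0 : ∀ f ∈ F, f ∉ C0)
    {N0 : Set X} {p : Set X × Set X} (hp : Inv M F N0 p) (O : Set X)
    (hO : IsOpen O) (hFO : ((F : Set X) ∩ O).Nonempty) :
    ∃ q, Inv M F N0 q ∧ p.1 ⊆ q.1 ∧ (q.1 ∩ O).Nonempty := by
  classical
  obtain ⟨f0, hf0F, hf0O⟩ := hFO
  obtain ⟨h1, h2, h3, h4, h5, h6⟩ := hp
  set bad : Set X := ⋃ i : Fin k, ⋃ g ∈ Fintype.piFinset (fun _ : Fin k => F),
    {a | Function.update g i a ∈ M} with hbad
  have hbadc : bad.Countable := by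
    refine countable_iUnion fun i => ?_
    exact (Finset.countable_toSet _).biUnion fun g _ => hslice i g
  have hne : ((O ∩ p.2) \ bad).Nonempty := by
    by_contra hcon
    rw [not_nonempty_iff_eq_empty, sdiff_eq_empty] at hcon
    exact hunc (O ∩ p.2) (hO.inter h2) ⟨f0, ⟨hf0O, h3 hf0F⟩, hF0 f0 hf0F⟩ (hbadc.mono hcon)
  obtain ⟨a, ⟨haO, hap⟩, habad⟩ := hne
  have hbox : ∀ (i : Fin k) (g : Fin k → X), (∀ j, j ≠ i → g j ∈ F) → g i = a → g ∉ M := by
    intro i g hg hgi hgM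
    apply habad
    simp only [hbad, mem_iUnion]
    refine ⟨i, Function.update g i f0, ?_, ?_⟩
    · rw [Fintype.mem_piFinset]
      intro j
      by_cases hji : j = i
      · subst hji
        simpa using hf0F
      · rw [Function.update_of_ne hji]
        exact hg j hji
    · simp only [mem_ofPred_eq, Function.update_idem]
      rw [← hgi, Function.update_eq_self]
      exact hgM
  obtain ⟨A, N, hA, hN, haA, hFN, hAN⟩ := exists_box hM F a hbox
  obtain ⟨A', hA', haA', hsepA'⟩ := hsep a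
  refine ⟨(p.1 ∪ (A ∩ A' ∩ (O ∩ p.2)), p.2 ∩ N), ⟨?_, ?_, ?_, ?_, ?_, ?_⟩, subset_union_left, ?_⟩
  · exact h1.union ((hA.inter hA').inter (hO.inter h2))
  · exact h2.inter hN
  · exact subset_inter h3 hFN
  · exact union_subset h4 (inter_subset_right.trans (inter_subset_right.trans h5))
  · exact inter_subset_left.trans h5
  · intro x hx hall i hi
    have hall' : ∀ i, x i ∈ p.1 ∪ p.2 := by
      intro i
      rcases hall i with hh | hh
      · rcases hh with hh | hh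
        · exact Or.inl hh
        · exact Or.inr hh.2.2
      · exact Or.inr hh.1
    have hnot := h6 x hx hall'
    rcases hi with hi | hi
    · exact hnot i hi
    · refine hAN x hx i hi.1.1 ?_
      intro j hji
      rcases hall j with hh | hh
      · rcases hh with hh | hh
        · exact absurd hh (hnot j)
        · exact absurd (hsepA' x hx j i hh.1.2 hi.1.2) hji
      · exact hh.2
  · exact ⟨a, Or.inr ⟨⟨haA, haA'⟩, haO, hap⟩, haO⟩

/-- The construction of an open set that accumulates to `F` and contains no tuple of `M`. -/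
lemma exists_openB {k : ℕ} [SecondCountableTopology X] {M : Set (Fin (k + 1) → X)}
    (hM : IsClosed M) {C0 : Set X}
    (hsep : ∀ a : X, ∃ A, IsOpen A ∧ a ∈ A ∧ ∀ x ∈ M, ∀ i j, x i ∈ A → x j ∈ A → i = j)
    (hslice : ∀ i (g : Fin (k + 1) → X), {a | Function.update g i a ∈ M}.Countable)
    (hunc : ∀ O : Set X, IsOpen O → (O \ C0).Nonempty → ¬ O.Countable)
    (F : Finset X) (hF0 : ∀ f ∈ F, f ∉ C0)
    {N0 : Set X} (hN0 : IsOpen N0) (hFN0 : (F : Set X) ⊆ N0) :
    ∃ U : Set X, IsOpen U ∧ (F : Set X) ⊆ closure U ∧ U ⊆ N0 ∧ ∀ x ∈ M, ∃ i, x i ∉ U := by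
  classical
  obtain ⟨b, hbc, -, hb⟩ := exists_countable_basis X
  rcases b.eq_empty_or_nonempty with hbe | hbne
  · -- no open sets, the space is empty
    have hX : IsEmpty X := by
      refine ⟨fun x => ?_⟩
      obtain ⟨t, ht, -⟩ := hb.exists_subset_of_mem_open (mem_univ x) isOpen_univ
      rw [hbe] at ht
      exact ht
    exact ⟨∅, isOpen_empty, fun x _ => (hX.false x).elim, empty_subset _,
      fun x _ => (hX.false (x 0)).elim⟩
  obtain ⟨O, hO⟩ := hbc.exists_eq_range hbne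
  have hOo : ∀ n, IsOpen (O n) := fun n => hb.isOpen (hO ▸ mem_range_self n)
  have hstep : ∀ (n : ℕ) (p : {p : Set X × Set X // Inv M F N0 p}),
      ∃ q : {p : Set X × Set X // Inv M F N0 p},
        p.1.1 ⊆ q.1.1 ∧ (((F : Set X) ∩ O n).Nonempty → (q.1.1 ∩ O n).Nonempty) := by
    intro n p
    by_cases hn : ((F : Set X) ∩ O n).Nonempty
    · obtain ⟨q, hq, hq1, hq2⟩ := inv_stepB hM hsep hslice hunc hF0 p.2 (O n) (hOo n) hn
      exact ⟨⟨q, hq⟩, hq1, fun _ => hq2⟩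
    · exact ⟨p, subset_rfl, fun h => absurd h hn⟩
  choose nxt hnxt1 hnxt2 using hstep
  have h0 : Inv M F N0 (∅, N0) :=
    ⟨isOpen_empty, hN0, hFN0, empty_subset _, subset_rfl, fun _ _ _ _ h => h⟩
  let p : ℕ → {p : Set X × Set X // Inv M F N0 p} :=
    fun n => Nat.rec ⟨(∅, N0), h0⟩ (fun m q => nxt m q) n
  have hps : ∀ n, p (n + 1) = nxt n (p n) := fun n => rfl
  have hmono : Monotone fun n => (p n).1.1 :=
    monotone_nat_of_le_succ fun n => by
      show (p n).1.1 ⊆ (p (n + 1)).1.1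
      rw [hps]; exact hnxt1 n (p n)
  refine ⟨⋃ n, (p n).1.1, isOpen_iUnion fun n => (p n).2.1, ?_, ?_, ?_⟩
  · intro f hf
    rw [mem_closure_iff_nhds]
    intro t ht
    obtain ⟨o, ho, hfo, hot⟩ := hb.mem_nhds_iff.1 ht
    rw [hO] at ho
    obtain ⟨n, rfl⟩ := ho
    obtain ⟨y, hy1, hy2⟩ := hnxt2 n (p n) ⟨f, hf, hfo⟩
    exact ⟨y, hot hy2, mem_iUnion.2 ⟨n + 1, by rw [hps]; exact hy1⟩⟩
  · exact iUnion_subset fun n => (p n).2.2.2.2.1
  · intro x hx
    by_contra hcon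
    push Not at hcon
    have : ∀ i, ∃ n, x i ∈ (p n).1.1 := fun i => mem_iUnion.1 (hcon i)
    choose n hn using this
    obtain ⟨m, hm⟩ : ∃ m, ∀ i, n i ≤ m := ⟨Finset.univ.sup n, fun i => Finset.le_sup (Finset.mem_univ i)⟩
    have hall : ∀ i, x i ∈ (p m).1.1 := fun i => hmono (hm i) (hn i)
    exact (p m).2.2.2.2.2.2 x hx (fun i => Or.inl (hall i)) 0 (hall 0)

/-- The core lemma in a form that allows an open set `C0` of exceptional points. -/
theorem coreB {k : ℕ} [SecondCountableTopology X] [T2Space X] {M : Set (Fin (k + 1) → X)}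
    (hKL : KOmegaLindelof X)
    (hbd : ∀ U : Set X, IsOpen U → (frontier U).Countable)
    (hM : IsClosed M) {C0 : Set X} (hC0 : IsOpen C0) (hC0d : ¬ Dense C0)
    (hMC0 : ∀ x ∈ M, ∀ i, x i ∉ C0)
    (hsep : ∀ a : X, ∃ A, IsOpen A ∧ a ∈ A ∧ ∀ x ∈ M, ∀ i j, x i ∈ A → x j ∈ A → i = j)
    (hslice : ∀ i (g : Fin (k + 1) → X), {a | Function.update g i a ∈ M}.Countable)
    (hunc : ∀ O : Set X, IsOpen O → (O \ C0).Nonempty → ¬ O.Countable) :
    ∃ C : Set X, C.Countable ∧ ∀ x ∈ M, ∃ i, x i ∈ C := by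
  classical
  have hfin : ∀ F : Set X, F.Finite → ∃ U : Set X,
      (IsOpen U ∧ ¬ Dense U ∧ ∀ x ∈ M, ∃ i, x i ∉ U) ∧ F ⊆ closure U := by
    intro F hF
    obtain ⟨q, hqC, hqF⟩ : ∃ q, q ∉ closure C0 ∧ q ∉ F := by
      by_contra hcon
      push Not at hcon
      rw [dense_iff_closure_eq, ← ne_eq, ne_univ_iff_exists_notMem] at hC0d
      obtain ⟨y, hy⟩ := hC0d
      refine hunc (closure C0)ᶜ isClosed_closure.isOpen_compl
        ⟨y, hy, fun h => hy (subset_closure h)⟩ (hF.countable.mono fun x hx => hcon x hx)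
    have hqF' : q ∉ F \ C0 := fun h => hqF h.1
    have hFf : (F \ C0).Finite := hF.subset sdiff_subset
    obtain ⟨N0, V, hN0, hV, hFN0, hqV, hdisj⟩ := hFf.isCompact.separation_of_notMem hqF'
    have hF' : ((hFf.toFinset : Finset X) : Set X) ⊆ N0 := by simpa using hFN0
    obtain ⟨U, hU, hFU, hUN0, hUM⟩ := exists_openB hM hsep hslice hunc hFf.toFinset
      (fun f hf => by
        have : f ∈ F \ C0 := by simpa using hf
        exact this.2) hN0 hF'
    refine ⟨U ∪ C0, ⟨hU.union hC0, ?_, ?_⟩, ?_⟩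
    · intro hd
      obtain ⟨y, ⟨hyV, hyC⟩, hyU⟩ := hd.inter_open_nonempty (V ∩ (closure C0)ᶜ)
        (hV.inter isClosed_closure.isOpen_compl) ⟨q, hqV, hqC⟩
      rcases hyU with hyU | hyU
      · exact hdisj.le_bot ⟨hUN0 hyU, hyV⟩
      · exact hyC (subset_closure hyU)
    · intro x hx
      obtain ⟨i, hi⟩ := hUM x hx
      exact ⟨i, fun h => h.elim hi (hMC0 x hx i)⟩
    · intro f hf
      by_cases hfC : f ∈ C0
      · exact subset_closure (Or.inr hfC)
      · refine closure_mono subset_union_left (hFU ?_)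
        simp only [Finite.coe_toFinset]
        exact ⟨hf, hfC⟩
  obtain ⟨𝒱, hsub, hcount, -, -, -, hfinV⟩ := hKL
    {U | IsOpen U ∧ ¬ Dense U ∧ ∀ x ∈ M, ∃ i, x i ∉ U}
    ⟨fun U hU => hU.1, by
      rw [eq_univ_iff_forall]
      intro x
      obtain ⟨U, hU, hxU⟩ := hfin {x} (finite_singleton x)
      exact mem_biUnion hU (hxU rfl), fun U hU => hU.2.1, fun F hF => hfin F hF⟩
  refine ⟨⋃ U ∈ 𝒱, frontier U, hcount.biUnion fun U hU => hbd U (hsub hU).1, ?_⟩
  intro x hx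
  obtain ⟨U, hU, hxU⟩ := hfinV (range x) (finite_range x)
  obtain ⟨i, hi⟩ := (hsub hU).2.2 x hx
  refine ⟨i, mem_biUnion hU ?_⟩
  rw [(hsub hU).1.frontier_eq]
  exact ⟨hxU (mem_range_self i), hi⟩

end Pool.Agent.Helper85.Lusin
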