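import Pool.Agent.Helper85.Lusin.Defs

open Set TopologicalSpace Filter Topology

namespace Pool.Agent.Helper85.Lusin

variable {X : Type*} [TopologicalSpace X]

/-- A `K_Omega`-Lindelof space of size less than `cov(M)` has `S_1(K_Omega, K_Omega)`. -/
theorem s1_of_card [Infinite X] (hKL : KOmegaLindelof X)
    (hcov : ∀ f : X → Set (ℕ → ℕ), (∀ x, IsNowhereDense (f x)) → ⋃ x, f x ≠ univ) :
    S1KOmega X := by
  classical
  intro 𝒰 h𝒰
  have h1 : ∀ n, ∃ 𝒱 : Set (Set X), 𝒱 ⊆ 𝒰 n ∧ 𝒱.Countable ∧ IsKOmega 𝒱 := fun n => hKL _ (h𝒰 n)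
  choose 𝒱 hsub hcount hK using h1
  have h2 : ∀ n, ∃ V : ℕ → Set X, 𝒱 n = range V := by
    intro n
    refine (hcount n).exists_eq_range ?_
    obtain ⟨U, hU, -⟩ := (hK n).2.2.2 ∅ finite_empty
    exact ⟨U, hU⟩
  choose V hV using h2
  have hVK : ∀ n (F : Finset X), ∃ m, (F : Set X) ⊆ closure (V n m) := by
    intro n F
    obtain ⟨U, hU, hFU⟩ := (hK n).2.2.2 F F.finite_toSet
    rw [hV n] at hU
    obtain ⟨m, rfl⟩ := hU
    exact ⟨m, hFU⟩
  obtain ⟨e⟩ : Nonempty (X ≃ Finset X) :=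
    Cardinal.eq.1 (Cardinal.mk_finset_of_infinite X).symm
  set f : X → Set (ℕ → ℕ) := fun x => {h | ∀ n, ¬ ((e x : Finset X) : Set X) ⊆ closure (V n (h n))}
    with hf
  have hnwd : ∀ x, IsNowhereDense (f x) := by
    intro x
    have hcl : IsClosed (f x) := by
      have : f x = ⋂ n, (fun h : ℕ → ℕ => h n) ⁻¹'
          {m | ¬ ((e x : Finset X) : Set X) ⊆ closure (V n m)} := by
        ext h; simp [hf]
      rw [this]
      exact isClosed_iInter fun n => (isClosed_discrete _).preimage (continuous_apply n)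
    rw [hcl.isNowhereDense_iff, eq_empty_iff_forall_notMem]
    intro h hh
    obtain ⟨I, u, hu, hIu⟩ := isOpen_pi_iff.1 isOpen_interior h hh
    obtain ⟨n, hn⟩ := Infinite.exists_notMem_finset I
    obtain ⟨m, hm⟩ := hVK n (e x)
    have h3 : Function.update h n m ∈ interior (f x) := by
      apply hIu
      intro i hi
      rw [Function.update_of_ne (show i ≠ n from fun hin => hn (by rw [← hin]; exact hi))]
      exact (hu i hi).2
    refine interior_subset h3 n ?_
    simpa using hm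
  have := hcov f hnwd
  rw [ne_univ_iff_exists_notMem] at this
  obtain ⟨h, hh⟩ := this
  have hgood : ∀ F : Set X, F.Finite → ∃ n, F ⊆ closure (V n (h n)) := by
    intro F hF
    by_contra hcon
    push Not at hcon
    apply hh
    refine mem_iUnion.2 ⟨e.symm hF.toFinset, fun n => ?_⟩
    simpa using hcon n
  have hmem : ∀ n, V n (h n) ∈ 𝒰 n := fun n => hsub n (hV n ▸ mem_range_self (h n))
  refine ⟨fun n => V n (h n), hmem, ?_, ?_, ?_, ?_⟩
  · rintro _ ⟨n, rfl⟩
    exact (h𝒰 n).1 _ (hmem n)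
  · rw [eq_univ_iff_forall]
    intro x
    obtain ⟨n, hn⟩ := hgood {x} (finite_singleton x)
    exact mem_biUnion (mem_range_self n) (hn rfl)
  · rintro _ ⟨n, rfl⟩
    exact (h𝒰 n).2.2.1 _ (hmem n)
  · intro F hF
    obtain ⟨n, hn⟩ := hgood F hF
    exact ⟨_, mem_range_self n, hn⟩

end Pool.Agent.Helper85.Lusin
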