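import Pool.Agent.Helper85.Lusin.Core

open Set TopologicalSpace Filter Topology

namespace Pool.Agent.Helper85.Lusin

variable {X : Type*} [TopologicalSpace X]

/-- The closed nowhere dense form of the strong Lusin property, in dimension `k`. -/
def SLk (X : Type*) [TopologicalSpace X] (k : ℕ) : Prop :=
  ∀ M : Set (Fin k → X), IsClosed M → IsNowhereDense M →
    ∃ C : Set X, C.Countable ∧ ∀ x ∈ M, Function.Injective x → ∃ i, x i ∈ C

omit [TopologicalSpace X] in
lemma countable_of_image_val {D : Set X} {S : Set D} (h : ((fun x : D => (x : X)) '' S).Countable) :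
    S.Countable :=
  countable_of_injective_of_countable_image Subtype.val_injective.injOn h

/-- In a subspace of a space with countable meager sets, boundaries of open sets are countable. -/
lemma frontier_countable_sub (hL : ∀ M : Set X, IsMeagre M → M.Countable) (D : Set X)
    (U : Set D) (hU : IsOpen U) : (frontier U).Countable := by
  apply countable_of_image_val
  apply hL
  apply IsNowhereDense.isMeagre
  apply Topology.IsInducing.subtypeVal.isNowhereDense_image
  rw [isClosed_frontier.isNowhereDense_iff]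
  have h1 : IsClosed Uᶜ := hU.isClosed_compl
  rw [← frontier_compl]
  exact interior_frontier h1

lemma slk_succ_sep [SecondCountableTopology X] [T2Space X]
    (hL : ∀ M : Set X, IsMeagre M → M.Countable)
    (h : ∀ D : Set X, D.Countable → KOmegaLindelof ↥Dᶜ) {k : ℕ} (ih : SLk X k)
    (M : Set (Fin (k + 1) → X)) (hM : IsClosed M) (hMn : IsNowhereDense M)
    (B : Fin (k + 1) → Set X) (hB : ∀ i, IsClosed (B i)) (hBd : Pairwise fun i j => Disjoint (B i) (B j))
    (hMB : ∀ x ∈ M, ∀ i, x i ∈ B i) :
    ∃ C : Set X, C.Countable ∧ ∀ x ∈ M, ∃ i, x i ∈ C := by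
  classical
  obtain ⟨b, hbc, hbe, hb⟩ := exists_countable_basis X
  have hbne : ∀ V ∈ b, V.Nonempty := by
    intro V hV
    rw [nonempty_iff_ne_empty]
    rintro rfl
    exact hbe hV
  have hinj : ∀ x ∈ M, ∀ i j, i ≠ j → x i ≠ x j := by
    intro x hx i j hij hxij
    exact (hBd hij).le_bot ⟨hMB x hx i, hxij ▸ hMB x hx j⟩
  -- the sets of sector tuples
  set P : Fin (k + 1) → Set X → Set (Fin k → X) :=
    fun i V => {y | ∀ v ∈ V, (i.insertNth v y : Fin (k + 1) → X) ∈ M} with hP
  have hPc : ∀ i V, IsClosed (P i V) := by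
    intro i V
    have : P i V = ⋂ v ∈ V, (fun y : Fin k → X => (i.insertNth v y : Fin (k + 1) → X)) ⁻¹' M := by
      ext y; simp [hP]
    rw [this]
    refine isClosed_biInter fun v _ => hM.preimage ?_
    exact Continuous.finInsertNth i continuous_const continuous_id
  have hPn : ∀ i, ∀ V ∈ b, IsNowhereDense (P i V) := by
    intro i V hV
    rw [(hPc i V).isNowhereDense_iff, eq_empty_iff_forall_notMem]
    intro y hy
    have hMi : interior M = ∅ := by rwa [← hM.isNowhereDense_iff]
    set S : Set (Fin (k + 1) → X) := {z | z i ∈ V ∧ (fun j => z (i.succAbove j)) ∈ interior (P i V)}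
      with hS
    have hSo : IsOpen S := by
      have h1 : IsOpen {z : Fin (k + 1) → X | z i ∈ V} :=
        (hb.isOpen hV).preimage (continuous_apply i)
      have h2 : IsOpen {z : Fin (k + 1) → X | (fun j => z (i.succAbove j)) ∈ interior (P i V)} :=
        isOpen_interior.preimage (continuous_pi fun j => continuous_apply (i.succAbove j))
      exact h1.inter h2
    have hSM : S ⊆ M := by
      intro z hz
      have := interior_subset hz.2 (z i) hz.1
      have e : (i.insertNth (z i) (fun j => z (i.succAbove j)) : Fin (k + 1) → X) = z :=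
        Fin.insertNth_self_removeNth i z
      rwa [e] at this
    obtain ⟨v, hv⟩ := hbne V hV
    have hz : (i.insertNth v y : Fin (k + 1) → X) ∈ S := by
      refine ⟨by simpa using hv, ?_⟩
      simpa using hy
    have : (i.insertNth v y : Fin (k + 1) → X) ∈ interior M := interior_maximal hSM hSo hz
    rw [hMi] at this
    exact this
  have hC : ∀ (i : Fin (k + 1)) (V : Set X), ∃ C : Set X, C.Countable ∧
      (V ∈ b → ∀ y ∈ P i V, ∃ j, y j ∈ C) := by
    intro i V
    by_cases hV : V ∈ b
    · obtain ⟨C, hC, hC'⟩ := ih (P i V) (hPc i V) (hPn i V hV)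
      refine ⟨C, hC, fun _ y hy => hC' y hy ?_⟩
      obtain ⟨v, hv⟩ := hbne V hV
      have hyM := hy v hv
      intro j j' hjj'
      by_contra hne
      refine hinj _ hyM (i.succAbove j) (i.succAbove j') (fun h => hne (Fin.succAbove_right_injective h)) ?_
      simpa using hjj'
    · exact ⟨∅, countable_empty, fun h => absurd h hV⟩
  choose C hCc hCm using hC
  set C0 : Set X := ⋃ o ∈ {o ∈ b | o.Countable}, o with hC0
  have hC0c : C0.Countable := (hbc.mono (fun o ho => ho.1)).biUnion fun o ho => ho.2
  set D : Set X := C0 ∪ ⋃ i, ⋃ V ∈ b, C i V with hD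
  have hDc : D.Countable :=
    hC0c.union (countable_iUnion fun i => hbc.biUnion fun V _ => hCc i V)
  set M' : Set (Fin (k + 1) → ↥Dᶜ) := {x | (fun i => (x i : X)) ∈ M} with hM'
  have hM'c : IsClosed M' :=
    hM.preimage (continuous_pi fun i => continuous_subtype_val.comp (continuous_apply i))
  have hsep : ∀ a : ↥Dᶜ, ∃ A, IsOpen A ∧ a ∈ A ∧ ∀ x ∈ M', ∀ i j, x i ∈ A → x j ∈ A → i = j := by
    intro a
    refine ⟨(fun x : ↥Dᶜ => (x : X)) ⁻¹' (⋃ j ∈ {j | (a : X) ∉ B j}, B j)ᶜ, ?_, ?_, ?_⟩
    · refine IsOpen.preimage continuous_subtype_val ?_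
      rw [isOpen_compl_iff]
      exact (Set.toFinite _).isClosed_biUnion fun j _ => hB j
    · simp only [mem_preimage, mem_compl_iff, mem_iUnion, not_exists]
      exact fun j hj => hj
    · intro x hx i j hi hj
      simp only [mem_preimage, mem_compl_iff, mem_iUnion, not_exists] at hi hj
      have hai : (a : X) ∈ B i := by
        by_contra hcon
        exact hi i hcon (hMB _ hx i)
      have haj : (a : X) ∈ B j := by
        by_contra hcon
        exact hj j hcon (hMB _ hx j)
      by_contra hne
      exact (hBd hne).le_bot ⟨hai, haj⟩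
  have hslice : ∀ i (g : Fin (k + 1) → ↥Dᶜ), {a | Function.update g i a ∈ M'}.Countable := by
    intro i g
    apply countable_of_image_val
    have hsub : ((fun x : ↥Dᶜ => (x : X)) '' {a | Function.update g i a ∈ M'}) ⊆
        {a : X | Function.update (fun j => (g j : X)) i a ∈ M} := by
      rintro _ ⟨a, ha, rfl⟩
      have : (fun j => ((Function.update g i a) j : X)) ∈ M := ha
      have e : (fun j => ((Function.update g i a) j : X)) =
          Function.update (fun j => (g j : X)) i (a : X) := by
        funext j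
        by_cases hj : j = i
        · subst hj; simp
        · simp [Function.update_of_ne hj]
      rw [e] at this
      exact this
    refine Countable.mono hsub ?_
    apply hL
    apply IsNowhereDense.isMeagre
    have hcl : IsClosed {a : X | Function.update (fun j => (g j : X)) i a ∈ M} :=
      hM.preimage (continuous_const.update i continuous_id)
    rw [hcl.isNowhereDense_iff, eq_empty_iff_forall_notMem]
    intro p hp
    obtain ⟨V, hV, hpV, hVs⟩ := hb.exists_subset_of_mem_open hp isOpen_interior
    have hVs' := hVs.trans interior_subset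
    have hy : (fun j => (g (i.succAbove j) : X)) ∈ P i V := by
      intro v hv
      have h1 : Function.update (fun j => (g j : X)) i v ∈ M := hVs' hv
      have e : (i.insertNth v (fun j => (g (i.succAbove j) : X)) : Fin (k + 1) → X) =
          Function.update (fun j => (g j : X)) i v :=
        Fin.insertNth_removeNth i v (fun j => (g j : X))
      rwa [e]
    obtain ⟨j, hj⟩ := hCm i V hV _ hy
    refine (g (i.succAbove j)).2 ?_
    exact Or.inr (mem_iUnion.2 ⟨i, mem_biUnion hV hj⟩)
  have hunc : ∀ O : Set ↥Dᶜ, IsOpen O → O.Nonempty → ¬ O.Countable := by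
    rintro O hO ⟨p, hp⟩ hOc
    obtain ⟨O', hO', rfl⟩ := isOpen_induced_iff.1 hO
    obtain ⟨V, hV, hpV, hVs⟩ := hb.exists_subset_of_mem_open hp hO'
    have hVc : V.Countable := by
      refine (hDc.union (hOc.image (fun x : ↥Dᶜ => (x : X)))).mono ?_
      intro v hv
      by_cases hvD : v ∈ D
      · exact Or.inl hvD
      · exact Or.inr ⟨⟨v, hvD⟩, hVs hv, rfl⟩
    exact p.2 (Or.inl (mem_biUnion (show V ∈ {o ∈ b | o.Countable} from ⟨hV, hVc⟩) hpV))
  obtain ⟨C', hC'c, hC'm⟩ := core (M := M') (h D hDc) (fun U hU => frontier_countable_sub hL _ U hU)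
    hM'c hsep hslice hunc
  refine ⟨D ∪ (fun x : ↥Dᶜ => (x : X)) '' C', hDc.union (hC'c.image _), ?_⟩
  intro x hx
  by_cases hxD : ∃ i, x i ∈ D
  · obtain ⟨i, hi⟩ := hxD
    exact ⟨i, Or.inl hi⟩
  · push Not at hxD
    obtain ⟨i, hi⟩ := hC'm (fun i => ⟨x i, hxD i⟩) hx
    exact ⟨i, Or.inr ⟨_, hi, rfl⟩⟩

lemma slk_succ [SecondCountableTopology X] [T3Space X]
    (hL : ∀ M : Set X, IsMeagre M → M.Countable)
    (h : ∀ D : Set X, D.Countable → KOmegaLindelof ↥Dᶜ) {k : ℕ} (ih : SLk X k) :
    SLk X (k + 1) := by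
  classical
  intro M hM hMn
  obtain ⟨b, hbc, hbe, hb⟩ := exists_countable_basis X
  have hcount : Countable b := hbc
  have hC : ∀ c : Fin (k + 1) → b, ∃ C : Set X, C.Countable ∧
      ((Pairwise fun i j => Disjoint (closure (c i : Set X)) (closure (c j : Set X))) →
        ∀ x ∈ M, (∀ i, x i ∈ closure (c i : Set X)) → ∃ i, x i ∈ C) := by
    intro c
    by_cases hc : Pairwise fun i j => Disjoint (closure (c i : Set X)) (closure (c j : Set X))
    · obtain ⟨C, hC, hC'⟩ := slk_succ_sep hL h ih
        (M ∩ {x | ∀ i, x i ∈ closure (c i : Set X)})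
        (hM.inter (by
          simp only [ofPred_forall]
          exact isClosed_iInter fun i => isClosed_closure.preimage (continuous_apply i)))
        (hMn.mono inter_subset_left) (fun i => closure (c i : Set X)) (fun i => isClosed_closure)
        hc (fun x hx => hx.2)
      exact ⟨C, hC, fun _ x hx hxc => hC' x ⟨hx, hxc⟩⟩
    · exact ⟨∅, countable_empty, fun h => absurd h hc⟩
  choose C hCc hCm using hC
  refine ⟨⋃ c, C c, countable_iUnion hCc, ?_⟩
  intro x hx hxi
  obtain ⟨U, hU, hUd⟩ := (finite_range x).t2_separation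
  have : ∀ i, ∃ c : b, x i ∈ (c : Set X) ∧ closure (c : Set X) ⊆ U (x i) := by
    intro i
    obtain ⟨t, ht, hxt, htU⟩ := hb.exists_closure_subset ((hU (x i)).2.mem_nhds (hU (x i)).1)
    exact ⟨⟨t, ht⟩, hxt, htU⟩
  choose c hc1 hc2 using this
  obtain ⟨i, hi⟩ := hCm c (fun i j hij => (hUd (mem_range_self i) (mem_range_self j)
    (fun hh => hij (hxi hh))).mono (hc2 i) (hc2 j)) x hx (fun i => subset_closure (hc1 i))
  exact ⟨i, mem_iUnion.2 ⟨c, hi⟩⟩

lemma slk_zero : SLk X 0 := by
  intro M hM hMn
  refine ⟨∅, countable_empty, ?_⟩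
  intro x hx
  exfalso
  have hMu : M = univ := by
    rw [eq_univ_iff_forall]
    intro y
    rwa [Subsingleton.elim y x]
  rw [hM.isNowhereDense_iff, hMu, interior_univ] at hMn
  have : x ∈ (univ : Set (Fin 0 → X)) := mem_univ x
  rw [hMn] at this
  exact this

theorem stronglyLusin_of_cocountable [SecondCountableTopology X] [T3Space X]
    (hL : ∀ M : Set X, IsMeagre M → M.Countable)
    (h : ∀ D : Set X, D.Countable → KOmegaLindelof ↥Dᶜ) : StronglyLusin X := by
  classical
  have hk : ∀ k, SLk X k := by
    intro k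
    induction k with
    | zero => exact slk_zero
    | succ k ih => exact slk_succ hL h ih
  intro k M hM
  obtain ⟨S, hS, hSc, hMS⟩ := isMeagre_iff_countable_union_isNowhereDense.1 hM
  have : ∀ t : Set (Fin k → X), ∃ C : Set X, C.Countable ∧
      (t ∈ S → ∀ x ∈ t, Function.Injective x → ∃ i, x i ∈ C) := by
    intro t
    by_cases ht : t ∈ S
    · obtain ⟨C, hC, hC'⟩ := hk k (closure t) isClosed_closure (hS t ht).closure
      exact ⟨C, hC, fun _ x hx hxi => hC' x (subset_closure hx) hxi⟩
    · exact ⟨∅, countable_empty, fun h => absurd h ht⟩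
  choose C hCc hCm using this
  refine ⟨⋃ t ∈ S, C t, hSc.biUnion fun t _ => hCc t, ?_⟩
  intro x hx hxi
  obtain ⟨t, ht, hxt⟩ := hMS hx
  obtain ⟨i, hi⟩ := hCm t ht x hxt hxi
  exact ⟨i, mem_biUnion ht hi⟩

end Pool.Agent.Helper85.Lusin
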