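import Pool.Agent.Helper85.Lusin.CoreB
import Pool.Agent.Helper85.Lusin.Induct

open Set TopologicalSpace Filter Topology

namespace Pool.Agent.Helper85.Lusin

/-- The Rothberger property `S_1(O, O)`: from every sequence of open covers one can choose one
member each so that the chosen sets cover the space. -/
def Rothberger (Y : Type*) [TopologicalSpace Y] : Prop :=
  ∀ 𝒰 : ℕ → Set (Set Y), (∀ n, (∀ U ∈ 𝒰 n, IsOpen U) ∧ ⋃₀ 𝒰 n = univ) →
    ∃ U : ℕ → Set Y, (∀ n, U n ∈ 𝒰 n) ∧ ⋃ n, U n = univ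

/-- Selections that cover a given subset. -/
def Rb {Y : Type*} [TopologicalSpace Y] (S : Set Y) : Prop :=
  ∀ 𝒰 : ℕ → Set (Set Y), (∀ n, (∀ U ∈ 𝒰 n, IsOpen U) ∧ ⋃₀ 𝒰 n = univ) →
    ∃ U : ℕ → Set Y, (∀ n, U n ∈ 𝒰 n) ∧ S ⊆ ⋃ n, U n

section Rb

variable {Y Z : Type*} [TopologicalSpace Y] [TopologicalSpace Z]

lemma Rb.mono {S T : Set Y} (h : Rb T) (hST : S ⊆ T) : Rb S := fun 𝒰 h𝒰 =>
  let ⟨U, hU, hT⟩ := h 𝒰 h𝒰
  ⟨U, hU, hST.trans hT⟩

lemma rb_iUnion_nat {S : ℕ → Set Y} (h : ∀ i, Rb (S i)) : Rb (⋃ i, S i) := by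
  intro 𝒰 h𝒰
  have := fun i => h i (fun m => 𝒰 (Nat.pair i m)) fun m => h𝒰 _
  choose U hU hS using this
  refine ⟨fun n => U (Nat.unpair n).1 (Nat.unpair n).2, ?_, ?_⟩
  · intro n
    have := hU (Nat.unpair n).1 (Nat.unpair n).2
    rwa [Nat.pair_unpair] at this
  · refine iUnion_subset fun i x hx => ?_
    obtain ⟨m, hm⟩ := mem_iUnion.1 (hS i hx)
    refine mem_iUnion.2 ⟨Nat.pair i m, ?_⟩
    rw [Nat.unpair_pair]
    exact hm

lemma rb_empty [Nonempty Y] : Rb (∅ : Set Y) := by
  intro 𝒰 h𝒰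
  have : ∀ n, ∃ U, U ∈ 𝒰 n := by
    intro n
    obtain ⟨y⟩ := ‹Nonempty Y›
    have : y ∈ ⋃₀ 𝒰 n := by rw [(h𝒰 n).2]; exact mem_univ y
    obtain ⟨U, hU, -⟩ := this
    exact ⟨U, hU⟩
  choose U hU using this
  exact ⟨U, hU, empty_subset _⟩

lemma rb_iUnion [Nonempty Y] {ι : Sort*} [Countable ι] {S : ι → Set Y} (h : ∀ i, Rb (S i)) :
    Rb (⋃ i, S i) := by
  rcases isEmpty_or_nonempty ι with hι | hι
  · rw [iUnion_of_empty]; exact rb_empty
  · obtain ⟨e, he⟩ := exists_surjective_nat ι
    refine (rb_iUnion_nat fun n => h (e n)).mono ?_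
    refine iUnion_subset fun i => ?_
    obtain ⟨n, rfl⟩ := he i
    exact subset_iUnion (fun n => S (e n)) n

lemma rb_range (hZ : Rothberger Z) {f : Z → Y} (hf : Continuous f) : Rb (range f) := by
  intro 𝒰 h𝒰
  obtain ⟨V, hV, hVc⟩ := hZ (fun n => (fun U => f ⁻¹' U) '' 𝒰 n) (by
    intro n
    refine ⟨?_, ?_⟩
    · rintro _ ⟨U, hU, rfl⟩
      exact ((h𝒰 n).1 U hU).preimage hf
    · rw [eq_univ_iff_forall]
      intro z
      have : f z ∈ ⋃₀ 𝒰 n := by rw [(h𝒰 n).2]; exact mem_univ _
      obtain ⟨U, hU, hz⟩ := this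
      exact ⟨_, ⟨U, hU, rfl⟩, hz⟩)
  choose U hU hUV using hV
  refine ⟨U, hU, ?_⟩
  rintro _ ⟨z, rfl⟩
  have : z ∈ ⋃ n, V n := by rw [hVc]; exact mem_univ z
  obtain ⟨n, hn⟩ := mem_iUnion.1 this
  rw [← hUV n] at hn
  exact mem_iUnion.2 ⟨n, hn⟩

/-- A two-step criterion for the Rothberger property. -/
lemma rothberger_of_two_step {A : Set Y} (hA : Rb A)
    (hB : ∀ G : Set Y, IsOpen G → A ⊆ G → Rb Gᶜ) : Rothberger Y := by
  classical
  intro 𝒰 h𝒰
  obtain ⟨U0, hU0, hA0⟩ := hA (fun n => 𝒰 (2 * n)) fun n => h𝒰 _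
  obtain ⟨U1, hU1, hB1⟩ := hB (⋃ n, U0 n) (isOpen_iUnion fun n => (h𝒰 _).1 _ (hU0 n)) hA0
    (fun n => 𝒰 (2 * n + 1)) fun n => h𝒰 _
  refine ⟨fun n => if n % 2 = 0 then U0 (n / 2) else U1 (n / 2), ?_, ?_⟩
  · intro n
    dsimp only
    split_ifs with hn
    · have := hU0 (n / 2)
      rwa [show 2 * (n / 2) = n by omega] at this
    · have := hU1 (n / 2)
      rwa [show 2 * (n / 2) + 1 = n by omega] at this
  · rw [eq_univ_iff_forall]
    intro y
    by_cases hy : y ∈ ⋃ n, U0 n
    · obtain ⟨n, hn⟩ := mem_iUnion.1 hy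
      refine mem_iUnion.2 ⟨2 * n, ?_⟩
      rw [if_pos (by omega), show 2 * n / 2 = n by omega]
      exact hn
    · obtain ⟨n, hn⟩ := mem_iUnion.1 (hB1 hy)
      refine mem_iUnion.2 ⟨2 * n + 1, ?_⟩
      rw [if_neg (by omega), show (2 * n + 1) / 2 = n by omega]
      exact hn

end Rb

variable {X : Type*} [TopologicalSpace X]

lemma rothberger_zero [Nonempty X] : Rothberger (Fin 0 → X) := by
  intro 𝒰 h𝒰
  have : ∀ n, ∃ U ∈ 𝒰 n, (Fin.elim0 : Fin 0 → X) ∈ U := by
    intro n
    have : (Fin.elim0 : Fin 0 → X) ∈ ⋃₀ 𝒰 n := by rw [(h𝒰 n).2]; exact mem_univ _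
    exact this
  choose U hU hx using this
  refine ⟨U, hU, ?_⟩
  rw [eq_univ_iff_forall]
  intro x
  rw [Subsingleton.elim x (Fin.elim0 : Fin 0 → X)]
  exact mem_iUnion.2 ⟨0, hx 0⟩

lemma exists_exceptional [SecondCountableTopology X] (hX : IsLusin X) :
    ∃ C0 : Set X, C0.Countable ∧ IsOpen C0 ∧ ¬ Dense C0 ∧
      ∀ O : Set X, IsOpen O → (O \ C0).Nonempty → ¬ O.Countable := by
  obtain ⟨b, hbc, hbe, hb⟩ := exists_countable_basis X
  refine ⟨⋃ o ∈ {o ∈ b | o.Countable}, o, ?_, ?_, ?_, ?_⟩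
  · exact (hbc.mono (fun o ho => ho.1)).biUnion fun o ho => ho.2
  · exact isOpen_biUnion fun o ho => hb.isOpen ho.1
  · intro hd
    set C0 : Set X := ⋃ o ∈ {o ∈ b | o.Countable}, o with hC0
    have hC0o : IsOpen C0 := isOpen_biUnion fun o ho => hb.isOpen ho.1
    have hC0c : C0.Countable := (hbc.mono (fun o ho => ho.1)).biUnion fun o ho => ho.2
    have h1 : (C0ᶜ).Countable := by
      apply hX.2
      apply IsNowhereDense.isMeagre
      rw [hC0o.isClosed_compl.isNowhereDense_iff, interior_compl, hd.closure_eq, compl_univ]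
    have h2 : (univ : Set X).Countable := by
      rw [← union_compl_self C0]
      exact hC0c.union h1
    have := hX.1
    exact not_countable (α := X) (countable_univ_iff.1 h2)
  · rintro O hO ⟨p, hp, hpC⟩ hOc
    obtain ⟨V, hV, hpV, hVs⟩ := hb.exists_subset_of_mem_open hp hO
    exact hpC (mem_biUnion (show V ∈ {o ∈ b | o.Countable} from ⟨hV, hOc.mono hVs⟩) hpV)

lemma frontier_countable (hL : ∀ M : Set X, IsMeagre M → M.Countable)
    (U : Set X) (hU : IsOpen U) : (frontier U).Countable := by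
  apply hL
  apply IsNowhereDense.isMeagre
  rw [isClosed_frontier.isNowhereDense_iff, ← frontier_compl]
  exact interior_frontier hU.isClosed_compl

theorem rothberger_succ [SecondCountableTopology X] [T3Space X] (hX : IsLusin X)
    (hKL : KOmegaLindelof X) {k : ℕ} (ih : Rothberger (Fin k → X)) :
    Rothberger (Fin (k + 1) → X) := by
  classical
  have := hX.1
  have hne : Nonempty X := inferInstance
  obtain ⟨C0, hC0c, hC0o, hC0d, hunc⟩ := exists_exceptional hX
  obtain ⟨D, hDc, hDd⟩ := exists_countable_dense X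
  obtain ⟨b, hbc, hbe, hb⟩ := exists_countable_basis X
  have hcount : Countable b := hbc
  -- small sets are covered
  have hS : ∀ (i : Fin (k + 1)) (d : X), Rb {x : Fin (k + 1) → X | x i = d} := by
    intro i d
    refine (rb_range ih (f := fun y : Fin k → X => (i.insertNth d y : Fin (k + 1) → X))
      (Continuous.finInsertNth i continuous_const continuous_id)).mono ?_
    intro x hx
    refine ⟨fun j => x (i.succAbove j), ?_⟩
    have e : (i.insertNth (x i) (fun j => x (i.succAbove j)) : Fin (k + 1) → X) = x :=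
      Fin.insertNth_self_removeNth i x
    rw [show d = x i from hx.symm]
    exact e
  have hSC : ∀ C : Set X, C.Countable → Rb {x : Fin (k + 1) → X | ∃ i, x i ∈ C} := by
    intro C hC
    have hCc : Countable C := hC
    refine (rb_iUnion (ι := Fin (k + 1) × C) fun q => hS q.1 q.2).mono ?_
    rintro x ⟨i, hi⟩
    exact mem_iUnion.2 ⟨(i, ⟨x i, hi⟩), rfl⟩
  have hDg : Rb {x : Fin (k + 1) → X | ¬ Function.Injective x} := by
    have h1 : ∀ q : {q : Fin (k + 1) × Fin (k + 1) // q.1 ≠ q.2},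
        Rb {x : Fin (k + 1) → X | x q.1.1 = x q.1.2} := by
      rintro ⟨⟨i, j⟩, hij⟩
      obtain ⟨j', hj'⟩ := Fin.exists_succAbove_eq (show j ≠ i from Ne.symm hij)
      refine (rb_range ih
        (f := fun y : Fin k → X => (i.insertNth (y j') y : Fin (k + 1) → X))
        (Continuous.finInsertNth i (continuous_apply j') continuous_id)).mono ?_
      intro x hx
      refine ⟨fun l => x (i.succAbove l), ?_⟩
      have e : (i.insertNth (x i) (fun j => x (i.succAbove j)) : Fin (k + 1) → X) = x :=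
        Fin.insertNth_self_removeNth i x
      have hx' : x i = x j := hx
      show (i.insertNth (x (i.succAbove j')) (fun l => x (i.succAbove l)) : Fin (k + 1) → X) = x
      rw [hj', ← hx']
      exact e
    refine (rb_iUnion h1).mono ?_
    intro x hx
    simp only [mem_ofPred_eq, Function.Injective, not_forall] at hx
    obtain ⟨i, j, hij, hne⟩ := hx
    exact mem_iUnion.2 ⟨⟨(i, j), hne⟩, hij⟩
  set A : Set (Fin (k + 1) → X) :=
    {x | ∃ i, x i ∈ D ∪ C0} ∪ {x | ¬ Function.Injective x} with hA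
  have hARb : Rb A := by
    refine (rb_iUnion (ι := Bool) (S := fun t => if t then {x : Fin (k + 1) → X | ∃ i, x i ∈ D ∪ C0}
      else {x | ¬ Function.Injective x}) ?_).mono ?_
    · rintro (_ | _)
      · simpa using hDg
      · simpa using hSC (D ∪ C0) (hDc.union hC0c)
    · rintro x (hx | hx)
      · exact mem_iUnion.2 ⟨true, by simpa using hx⟩
      · exact mem_iUnion.2 ⟨false, by simpa using hx⟩
  refine rothberger_of_two_step hARb fun G hG hAG => ?_
  -- the remaining closed set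
  have hMc : IsClosed Gᶜ := hG.isClosed_compl
  have hMA : ∀ x ∈ Gᶜ, x ∉ A := fun x hx hxA => hx (hAG hxA)
  have hslice : ∀ i (g : Fin (k + 1) → X), {a | Function.update g i a ∈ Gᶜ}.Countable := by
    intro i g
    apply hX.2
    apply IsNowhereDense.isMeagre
    have hcl : IsClosed {a : X | Function.update g i a ∈ Gᶜ} :=
      hMc.preimage (continuous_const.update i continuous_id)
    rw [hcl.isNowhereDense_iff, eq_empty_iff_forall_notMem]
    intro p hp
    obtain ⟨d, hd1, hd2⟩ := hDd.inter_open_nonempty _ isOpen_interior ⟨p, hp⟩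
    have hd3 : Function.update g i d ∈ Gᶜ :=
      interior_subset (s := {a : X | Function.update g i a ∈ Gᶜ}) hd1
    refine hMA _ hd3 (Or.inl ⟨i, Or.inl ?_⟩)
    simpa using hd2
  have hC : ∀ c : Fin (k + 1) → b, ∃ C : Set X, C.Countable ∧
      ((Pairwise fun i j => Disjoint (closure (c i : Set X)) (closure (c j : Set X))) →
        ∀ x ∈ Gᶜ, (∀ i, x i ∈ closure (c i : Set X)) → ∃ i, x i ∈ C) := by
    intro c
    by_cases hc : Pairwise fun i j => Disjoint (closure (c i : Set X)) (closure (c j : Set X))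
    · obtain ⟨C, hC, hC'⟩ := coreB (M := Gᶜ ∩ {x | ∀ i, x i ∈ closure (c i : Set X)}) hKL
        (fun U hU => frontier_countable hX.2 U hU)
        (hMc.inter (by
          simp only [ofPred_forall]
          exact isClosed_iInter fun i => isClosed_closure.preimage (continuous_apply i)))
        hC0o hC0d (fun x hx i hi => hMA x hx.1 (Or.inl ⟨i, Or.inr hi⟩))
        (by
          intro a
          refine ⟨(⋃ j ∈ {j | a ∉ closure (c j : Set X)}, closure (c j : Set X))ᶜ, ?_, ?_, ?_⟩
          · rw [isOpen_compl_iff]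
            exact (Set.toFinite _).isClosed_biUnion fun j _ => isClosed_closure
          · simp only [mem_compl_iff, mem_iUnion, not_exists]
            exact fun j hj => hj
          · intro x hx i j hi hj
            simp only [mem_compl_iff, mem_iUnion, not_exists] at hi hj
            have hai : a ∈ closure (c i : Set X) := by
              by_contra hcon
              exact hi i hcon (hx.2 i)
            have haj : a ∈ closure (c j : Set X) := by
              by_contra hcon
              exact hj j hcon (hx.2 j)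
            by_contra hne
            exact (hc hne).le_bot ⟨hai, haj⟩)
        (fun i g => (hslice i g).mono fun a ha => ha.1) hunc
      exact ⟨C, hC, fun _ x hx hxc => hC' x ⟨hx, hxc⟩⟩
    · exact ⟨∅, countable_empty, fun h => absurd h hc⟩
  choose C hCc hCm using hC
  refine (hSC (⋃ c, C c) (countable_iUnion hCc)).mono ?_
  intro x hx
  have hxi : Function.Injective x := by
    by_contra hcon
    exact hMA x hx (Or.inr hcon)
  obtain ⟨U, hU, hUd⟩ := (finite_range x).t2_separation
  have : ∀ i, ∃ c : b, x i ∈ (c : Set X) ∧ closure (c : Set X) ⊆ U (x i) := by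
    intro i
    obtain ⟨t, ht, hxt, htU⟩ := hb.exists_closure_subset ((hU (x i)).2.mem_nhds (hU (x i)).1)
    exact ⟨⟨t, ht⟩, hxt, htU⟩
  choose c hc1 hc2 using this
  obtain ⟨i, hi⟩ := hCm c (fun i j hij => (hUd (mem_range_self i) (mem_range_self j)
    (fun hh => hij (hxi hh))).mono (hc2 i) (hc2 j)) x hx (fun i => subset_closure (hc1 i))
  exact ⟨i, mem_iUnion.2 ⟨c, hi⟩⟩

/-- All finite powers of a `K_Omega`-Lindelof Lusin set are Rothberger. -/
theorem rothberger_pow [SecondCountableTopology X] [T3Space X] (hX : IsLusin X)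
    (hKL : KOmegaLindelof X) (k : ℕ) : Rothberger (Fin k → X) := by
  have := hX.1
  induction k with
  | zero => exact rothberger_zero
  | succ k ih => exact rothberger_succ hX hKL ih

/-- Selections from families that capture each finite set in the interior of a closure. -/
theorem selection_interior [Nonempty X] (hR : ∀ k, Rothberger (Fin k → X))
    (𝒰 : ℕ → Set (Set X))
    (h : ∀ n, ∀ F : Set X, F.Finite → ∃ U ∈ 𝒰 n, F ⊆ interior (closure U)) :
    ∃ U : ℕ → Set X, (∀ n, U n ∈ 𝒰 n) ∧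
      ∀ F : Set X, F.Finite → ∃ n, F ⊆ interior (closure (U n)) := by
  classical
  have hsel : ∀ k : ℕ, ∃ U : ℕ → Set X, (∀ m, U m ∈ 𝒰 (Nat.pair k m)) ∧
      ∀ x : Fin k → X, ∃ m, ∀ i, x i ∈ interior (closure (U m)) := by
    intro k
    obtain ⟨V, hV, hVc⟩ := hR k
      (fun m => (fun U => {x : Fin k → X | ∀ i, x i ∈ interior (closure U)}) '' 𝒰 (Nat.pair k m)) (by
        intro m
        refine ⟨?_, ?_⟩
        · rintro _ ⟨U, hU, rfl⟩
          simp only [ofPred_forall]
          exact isOpen_iInter_of_finite fun i => isOpen_interior.preimage (continuous_apply i)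
        · rw [eq_univ_iff_forall]
          intro x
          obtain ⟨U, hU, hx⟩ := h (Nat.pair k m) (range x) (finite_range x)
          exact ⟨_, ⟨U, hU, rfl⟩, fun i => hx (mem_range_self i)⟩)
    choose U hU hUV using hV
    refine ⟨U, hU, fun x => ?_⟩
    have : x ∈ ⋃ n, V n := by rw [hVc]; exact mem_univ x
    obtain ⟨m, hm⟩ := mem_iUnion.1 this
    rw [← hUV m] at hm
    exact ⟨m, hm⟩
  choose U hU hUx using hsel
  refine ⟨fun n => U (Nat.unpair n).1 (Nat.unpair n).2, ?_, ?_⟩
  · intro n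
    have := hU (Nat.unpair n).1 (Nat.unpair n).2
    rwa [Nat.pair_unpair] at this
  · intro F hF
    obtain ⟨m, hm⟩ := hUx hF.toFinset.card (fun i => (hF.toFinset.equivFin.symm i : X))
    refine ⟨Nat.pair hF.toFinset.card m, ?_⟩
    simp only [Nat.unpair_pair]
    intro f hf
    have := hm (hF.toFinset.equivFin ⟨f, by simpa using hf⟩)
    simpa using this

/-- The selection principle for sequences from `K_Omega` whose members capture every finite set
in the interior of a closure; this contains the case of families of clopen sets. -/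
theorem s1_interior [SecondCountableTopology X] [T3Space X] (hX : IsLusin X)
    (hKL : KOmegaLindelof X) (𝒰 : ℕ → Set (Set X)) (h𝒰 : ∀ n, IsKOmega (𝒰 n))
    (h : ∀ n, ∀ F : Set X, F.Finite → ∃ U ∈ 𝒰 n, F ⊆ interior (closure U)) :
    ∃ U : ℕ → Set X, (∀ n, U n ∈ 𝒰 n) ∧ IsKOmega (range U) := by
  have := hX.1
  obtain ⟨U, hU, hUF⟩ := selection_interior (rothberger_pow hX hKL) 𝒰 h
  refine ⟨U, hU, ?_, ?_, ?_, ?_⟩
  · rintro _ ⟨n, rfl⟩
    exact (h𝒰 n).1 _ (hU n)
  · rw [eq_univ_iff_forall]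
    intro x
    obtain ⟨n, hn⟩ := hUF {x} (finite_singleton x)
    exact mem_biUnion (mem_range_self n) (interior_subset (hn rfl))
  · rintro _ ⟨n, rfl⟩
    exact (h𝒰 n).2.2.1 _ (hU n)
  · intro F hF
    obtain ⟨n, hn⟩ := hUF F hF
    exact ⟨_, mem_range_self n, hn.trans interior_subset⟩

end Pool.Agent.Helper85.Lusin
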