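import Pool.Agent.Helper85.Lusin.CovM
import Pool.Agent.Helper85.Lusin.Cells
import Pool.Agent.Helper85.Lusin.Rothberger

open Set TopologicalSpace Filter Topology

universe u

namespace Pool.Agent.Helper85.Lusin

/-- `cov(M)`: the least cardinality of a family of nowhere dense sets that covers the Baire
space. -/
noncomputable def covM : Cardinal.{0} :=
  sInf {κ | ∃ (ι : Type) (f : ι → Set (ℕ → ℕ)),
    Cardinal.mk ι = κ ∧ (∀ i, IsNowhereDense (f i)) ∧ ⋃ i, f i = univ}

lemma covM_spec : ∃ (ι : Type) (f : ι → Set (ℕ → ℕ)),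
    Cardinal.mk ι = covM ∧ (∀ i, IsNowhereDense (f i)) ∧ ⋃ i, f i = univ := by
  refine csInf_mem (s := {κ | ∃ (ι : Type) (f : ι → Set (ℕ → ℕ)),
    Cardinal.mk ι = κ ∧ (∀ i, IsNowhereDense (f i)) ∧ ⋃ i, f i = univ}) ?_
  refine ⟨_, (ℕ → ℕ), fun h => {h}, rfl, ?_, ?_⟩
  · intro h
    rw [isClosed_singleton.isNowhereDense_iff, eq_empty_iff_forall_notMem]
    intro h' hh'
    obtain ⟨I, u, hu, hIu⟩ := isOpen_pi_iff.1 isOpen_interior h' hh'
    obtain ⟨n, hn⟩ := Infinite.exists_notMem_finset I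
    have h3 : Function.update h' n (h n + 1) ∈ interior {h} := by
      apply hIu
      intro i hi
      rw [Function.update_of_ne (show i ≠ n from fun hin => hn (by rw [← hin]; exact hi))]
      exact (hu i hi).2
    have h4 : Function.update h' n (h n + 1) = h := interior_subset (s := {h}) h3
    have := congrFun h4 n
    simp at this
  · rw [eq_univ_iff_forall]
    intro h
    exact mem_iUnion.2 ⟨h, rfl⟩

variable {X : Type u} [TopologicalSpace X]

/-- The part of a Lusin set outside the closure of its countable open sets. -/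
lemma exists_big_part [SecondCountableTopology X] (hX : IsLusin X) :
    ∃ O : Set X, IsOpen O ∧ (Oᶜ).Countable ∧ O.Nonempty ∧
      ∀ V : Set X, IsOpen V → V ⊆ O → V.Nonempty → ¬ V.Countable := by
  obtain ⟨C0, hC0c, hC0o, hC0d, hunc⟩ := exists_exceptional hX
  refine ⟨(closure C0)ᶜ, isClosed_closure.isOpen_compl, ?_, ?_, ?_⟩
  · rw [compl_compl]
    have h1 : (frontier C0).Countable := frontier_countable hX.2 C0 hC0o
    refine (hC0c.union h1).mono ?_
    intro x hx
    by_cases hxC : x ∈ C0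
    · exact Or.inl hxC
    · right
      rw [hC0o.frontier_eq]
      exact ⟨hx, hxC⟩
  · rw [dense_iff_closure_eq, ← ne_eq, ne_univ_iff_exists_notMem] at hC0d
    exact hC0d
  · intro V hV hVO hVn
    obtain ⟨x, hx⟩ := hVn
    exact hunc V hV ⟨x, hx, fun h => hVO hx (subset_closure h)⟩

/-- A Lusin set has cardinality at most `cov(M)`. -/
theorem lusin_card_le [SecondCountableTopology X] [T2Space X] (hX : IsLusin X) :
    Cardinal.lift.{0} (Cardinal.mk X) ≤ Cardinal.lift.{u} covM := by
  classical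
  obtain ⟨ι, f, hι, hf, hfc⟩ := covM_spec
  rw [← hι]
  obtain ⟨O, hO, hOc, hOn, hunc⟩ := exists_big_part hX
  have hne : Nonempty O := hOn.to_subtype
  have hinf : ∀ V : Set O, IsOpen V → V.Nonempty → V.Infinite := by
    intro V hV hVn hVf
    refine hunc ((fun x : O => (x : X)) '' V) (hO.isOpenMap_subtype_val _ hV) ?_ (hVn.image _)
      (hVf.image _).countable
    rintro _ ⟨x, -, rfl⟩
    exact x.2
  obtain ⟨g, hg, -⟩ := exists_coding hinf
  have hgc : ∀ i, (g ⁻¹' f i).Countable := by
    intro i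
    apply countable_of_image_val
    exact hX.2 _ (Topology.IsInducing.subtypeVal.isMeagre_image (hg (f i) (hf i)))
  have hcov : ∀ x : O, ∃ i, x ∈ g ⁻¹' f i := by
    intro x
    have h1 : g x ∈ ⋃ i, f i := by rw [hfc]; exact mem_univ _
    obtain ⟨i, hi⟩ := mem_iUnion.1 h1
    exact ⟨i, hi⟩
  choose idx hidx using hcov
  have henc : ∀ i, ∃ e : O → ℕ, InjOn e (g ⁻¹' f i) := fun i => countable_iff_exists_injOn.1 (hgc i)
  choose e he using henc
  obtain ⟨e0, he0⟩ := countable_iff_exists_injOn.1 hOc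
  -- the injection
  let F : X → ι × ℕ ⊕ ℕ := fun x =>
    if h : x ∈ O then Sum.inl (idx ⟨x, h⟩, e (idx ⟨x, h⟩) ⟨x, h⟩) else Sum.inr (e0 x)
  have hF : Function.Injective F := by
    intro x y hxy
    by_cases hx : x ∈ O <;> by_cases hy : y ∈ O
    · simp only [F, dif_pos hx, dif_pos hy, Sum.inl.injEq, Prod.mk.injEq] at hxy
      obtain ⟨h1, h2⟩ := hxy
      rw [← h1] at h2
      have := he (idx ⟨x, hx⟩) (hidx ⟨x, hx⟩) (by rw [h1]; exact hidx ⟨y, hy⟩) h2
      exact congrArg Subtype.val this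
    · simp [F, dif_pos hx, dif_neg hy] at hxy
    · simp [F, dif_neg hx, dif_pos hy] at hxy
    · simp only [F, dif_neg hx, dif_neg hy, Sum.inr.injEq] at hxy
      exact he0 hx hy hxy
  have hinj := Cardinal.lift_mk_le_lift_mk_of_injective hF
  have hXunc := hX.1
  have hιinf : Infinite ι := by
    by_contra hcon
    rw [not_infinite_iff_finite] at hcon
    have : Countable X := hF.countable
    exact not_countable (α := X) this
  have hmk : Cardinal.mk (ι × ℕ ⊕ ℕ) = Cardinal.mk ι := by
    have h0 : Cardinal.aleph0 ≤ Cardinal.mk ι := Cardinal.aleph0_le_mk ι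
    simp only [Cardinal.mk_sum, Cardinal.mk_prod, Cardinal.mk_nat, Cardinal.lift_id,
      Cardinal.lift_aleph0]
    rw [Cardinal.mul_aleph0_eq h0, Cardinal.add_eq_left h0 h0]
  rwa [hmk] at hinj

/-- A `K_Omega`-Lindelof Lusin set without `S_1(K_Omega, K_Omega)` has cardinality `cov(M)`. -/
theorem card_eq_covM [SecondCountableTopology X] [T2Space X] (hX : IsLusin X)
    (hKL : KOmegaLindelof X) (hS : ¬ S1KOmega X) :
    Cardinal.lift.{0} (Cardinal.mk X) = Cardinal.lift.{u} covM := by
  apply le_antisymm (lusin_card_le hX)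
  have hunc := hX.1
  have hinf : Infinite X := inferInstance
  by_contra hcon
  apply hS
  apply s1_of_card hKL
  intro f hf hfc
  apply hcon
  have h1 : covM ≤ Cardinal.mk (range f) := by
    refine csInf_le' ⟨range f, fun s => s.1, rfl, ?_, ?_⟩
    · rintro ⟨_, ⟨x, rfl⟩⟩
      exact hf x
    · rw [← hfc]
      ext h
      simp
  have h2 := Cardinal.mk_range_le_lift (f := f)
  calc Cardinal.lift.{u} covM ≤ Cardinal.lift.{u} (Cardinal.mk (range f)) := Cardinal.lift_le.2 h1
    _ ≤ _ := h2

end Pool.Agent.Helper85.Lusin
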