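import Mathlib

/-!
Lusin sets and the selection property `S_1(K_Omega, K_Omega)`: the definitions of the problem.
-/

open Set TopologicalSpace

namespace Pool.Agent.Helper85.Lusin

/-- `X` is a Lusin set: it is uncountable and each of its meager subsets is countable. -/
def IsLusin (X : Type*) [TopologicalSpace X] : Prop :=
  Uncountable X ∧ ∀ M : Set X, IsMeagre M → M.Countable

/-- The family `𝒰` belongs to `K_Omega`: its members are open, their closures cover the space,
no member is dense, and each finite set is contained in the closure of some member. -/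
def IsKOmega {X : Type*} [TopologicalSpace X] (𝒰 : Set (Set X)) : Prop :=
  (∀ U ∈ 𝒰, IsOpen U) ∧ (⋃ U ∈ 𝒰, closure U) = univ ∧ (∀ U ∈ 𝒰, ¬ Dense U) ∧
    ∀ F : Set X, F.Finite → ∃ U ∈ 𝒰, F ⊆ closure U

/-- `X` is `K_Omega`-Lindelof: each family in `K_Omega` has a countable subfamily
in `K_Omega`. -/
def KOmegaLindelof (X : Type*) [TopologicalSpace X] : Prop :=
  ∀ 𝒰 : Set (Set X), IsKOmega 𝒰 → ∃ 𝒱 : Set (Set X), 𝒱 ⊆ 𝒰 ∧ 𝒱.Countable ∧ IsKOmega 𝒱

/-- The selection property `S_1(K_Omega, K_Omega)`. -/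
def S1KOmega (X : Type*) [TopologicalSpace X] : Prop :=
  ∀ 𝒰 : ℕ → Set (Set X), (∀ n, IsKOmega (𝒰 n)) →
    ∃ U : ℕ → Set X, (∀ n, U n ∈ 𝒰 n) ∧ IsKOmega (range U)

/-- `X` is strongly Lusin: for each `k` and each meager set `M` in `X^k` there is a countable
set `C` that meets every tuple in `M` with pairwise distinct coordinates. -/
def StronglyLusin (X : Type*) [TopologicalSpace X] : Prop :=
  ∀ (k : ℕ) (M : Set (Fin k → X)), IsMeagre M →
    ∃ C : Set X, C.Countable ∧ ∀ x ∈ M, Function.Injective x → ∃ i, x i ∈ C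

end Pool.Agent.Helper85.Lusin
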