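import Pool.Agent.Helper85.Lusin.Induct

open Set TopologicalSpace Filter Topology

namespace Pool.Agent.Helper85.Lusin

variable {X : Type*} [TopologicalSpace X]

omit [TopologicalSpace X] in
/-- Closing off a countable set under countably-valued operations on finite sets. -/
lemma exists_closed_countable (Cs : Finset X → Set X) (hCs : ∀ E, (Cs E).Countable) :
    ∃ C : Set X, C.Countable ∧ ∀ E : Finset X, (E : Set X) ⊆ C → Cs E ⊆ C := by
  classical
  let stepf : Set X → Set X := fun C => C ∪ ⋃ E ∈ {E : Finset X | (E : Set X) ⊆ C}, Cs E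
  let c : ℕ → Set X := fun n => Nat.rec ∅ (fun _ C => stepf C) n
  have hcs : ∀ n, c (n + 1) = c n ∪ ⋃ E ∈ {E : Finset X | (E : Set X) ⊆ c n}, Cs E := fun n => rfl
  have hfin : ∀ C : Set X, C.Countable → {E : Finset X | (E : Set X) ⊆ C}.Countable := by
    intro C hC
    have h1 : {s : Set X | s.Finite ∧ s ⊆ C}.Countable := countable_ofPred_finite_subset hC
    refine Set.Countable.mono ?_ (h1.preimage_of_injOn (f := fun E : Finset X => (E : Set X))
      Finset.coe_injective.injOn)
    intro E hE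
    exact ⟨E.finite_toSet, hE⟩
  have hcc : ∀ n, (c n).Countable := by
    intro n
    induction n with
    | zero => exact countable_empty
    | succ n ih =>
      rw [hcs]
      exact ih.union ((hfin _ ih).biUnion fun E _ => hCs E)
  have hmono : Monotone c := monotone_nat_of_le_succ fun n => by
    rw [hcs]; exact subset_union_left
  refine ⟨⋃ n, c n, countable_iUnion hcc, ?_⟩
  intro E hE
  have : ∃ n, (E : Set X) ⊆ c n := by
    have h1 : ∀ e : E, ∃ n, (e : X) ∈ c n := fun e => mem_iUnion.1 (hE e.2)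
    choose n hn using h1
    refine ⟨Finset.univ.sup n, fun e he => ?_⟩
    exact hmono (Finset.le_sup (Finset.mem_univ (⟨e, he⟩ : E))) (hn ⟨e, he⟩)
  obtain ⟨n, hn⟩ := this
  refine subset_trans ?_ (subset_iUnion c (n + 1))
  rw [hcs]
  exact subset_trans (subset_biUnion_of_mem (u := Cs) (show E ∈ {E : Finset X | (E : Set X) ⊆ c n} from hn))
    subset_union_right

/-- A strongly Lusin space has `S_1(K_Omega, K_Omega)`. -/
theorem s1_of_stronglyLusin [SecondCountableTopology X] (h : StronglyLusin X) : S1KOmega X := by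
  classical
  intro 𝒰 h𝒰
  obtain ⟨b, hbc, hbe, hb⟩ := exists_countable_basis X
  rcases b.eq_empty_or_nonempty with hb0 | hbne
  · exfalso
    have hX : IsEmpty X := by
      refine ⟨fun x => ?_⟩
      obtain ⟨t, ht, -⟩ := hb.exists_subset_of_mem_open (mem_univ x) isOpen_univ
      rw [hb0] at ht
      exact ht
    obtain ⟨U, hU, -⟩ := (h𝒰 0).2.2.2 ∅ finite_empty
    exact (h𝒰 0).2.2.1 U hU fun x => (hX.false x).elim
  obtain ⟨O, hO⟩ := hbc.exists_eq_range hbne
  have hOo : ∀ n, IsOpen (O n) := fun n => hb.isOpen (hO ▸ mem_range_self n)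
  have hOn : ∀ n, (O n).Nonempty := by
    intro n
    rw [nonempty_iff_ne_empty]
    intro h0
    exact hbe (by rw [hO, ← h0]; exact mem_range_self n)
  choose pt hpt using hOn
  -- the selections
  have hsel : ∀ (E : Finset X) (n : ℕ), ∃ U ∈ 𝒰 n, (E : Set X) ⊆ closure U ∧
      ∀ i ∈ Denumerable.ofNat (List ℕ) (Nat.unpair n).2, (U ∩ O i).Nonempty := by
    intro E n
    set l := Denumerable.ofNat (List ℕ) (Nat.unpair n).2 with hl
    obtain ⟨U, hU, hFU⟩ := (h𝒰 n).2.2.2 ((E : Set X) ∪ pt '' {i | i ∈ l})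
      (E.finite_toSet.union ((List.finite_toSet l).image pt))
    refine ⟨U, hU, subset_union_left.trans hFU, ?_⟩
    intro i hi
    have h1 : pt i ∈ closure U := hFU (Or.inr ⟨i, hi, rfl⟩)
    obtain ⟨y, hy1, hy2⟩ := mem_closure_iff.1 h1 (O i) (hOo i) (hpt i)
    exact ⟨y, hy2, hy1⟩
  choose sel hsel1 hsel2 hsel3 using hsel
  -- the sets of tuples inside one of the selected sets
  set G : Finset X → ℕ → (k : ℕ) → Set (Fin k → X) :=
    fun E j k => ⋃ m, {x | ∀ i, x i ∈ sel E (Nat.pair j m)} with hG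
  have hGo : ∀ E j k, IsOpen (G E j k) := by
    intro E j k
    refine isOpen_iUnion fun m => ?_
    simp only [ofPred_forall]
    exact isOpen_iInter_of_finite fun i =>
      ((h𝒰 _).1 _ (hsel1 E (Nat.pair j m))).preimage (continuous_apply i)
  have hGd : ∀ E j k, Dense (G E j k) := by
    intro E j k
    rw [dense_iff_inter_open]
    rintro W hW ⟨w, hw⟩
    obtain ⟨u, hu1, hu2⟩ := isOpen_pi_iff'.1 hW w hw
    have : ∀ i, ∃ n, w i ∈ O n ∧ O n ⊆ u i := by
      intro i
      obtain ⟨t, ht, hwt, htu⟩ := hb.exists_subset_of_mem_open (hu1 i).2 (hu1 i).1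
      rw [hO] at ht
      obtain ⟨n, rfl⟩ := ht
      exact ⟨n, hwt, htu⟩
    choose n hn1 hn2 using this
    set m := Encodable.encode (List.ofFn n) with hm
    have hl : Denumerable.ofNat (List ℕ) (Nat.unpair (Nat.pair j m)).2 = List.ofFn n := by
      rw [Nat.unpair_pair]
      exact Denumerable.ofNat_encode _
    have hz : ∀ i, (sel E (Nat.pair j m) ∩ O (n i)).Nonempty := by
      intro i
      apply hsel3 E (Nat.pair j m)
      rw [hl, List.mem_ofFn]
      exact ⟨i, rfl⟩
    choose z hz using hz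
    exact ⟨z, hu2 fun i _ => hn2 i (hz i).2, mem_iUnion.2 ⟨m, fun i => (hz i).1⟩⟩
  have hC : ∀ E j k, ∃ C : Set X, C.Countable ∧
      ∀ x ∉ G E j k, Function.Injective x → ∃ i, x i ∈ C := by
    intro E j k
    obtain ⟨C, hC, hC'⟩ := h k (G E j k)ᶜ (by
      apply IsNowhereDense.isMeagre
      rw [(hGo E j k).isClosed_compl.isNowhereDense_iff, interior_compl,
        (hGd E j k).closure_eq, compl_univ])
    exact ⟨C, hC, fun x hx hxi => hC' x hx hxi⟩
  choose C hCc hCm using hC
  obtain ⟨D, hDc, hD⟩ := exists_closed_countable (fun E => ⋃ j, ⋃ k, C E j k)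
    (fun E => countable_iUnion fun j => countable_iUnion fun k => hCc E j k)
  -- enumerate the finite subsets of `D`
  have hfin : {E : Finset X | (E : Set X) ⊆ D}.Countable := by
    have h1 : {s : Set X | s.Finite ∧ s ⊆ D}.Countable := countable_ofPred_finite_subset hDc
    refine Set.Countable.mono ?_ (h1.preimage_of_injOn (f := fun E : Finset X => (E : Set X))
      Finset.coe_injective.injOn)
    intro E hE
    exact ⟨E.finite_toSet, hE⟩
  obtain ⟨e, he⟩ := hfin.exists_eq_range ⟨∅, by simp⟩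
  have hcov : ∀ F : Set X, F.Finite →
      ∃ n, F ⊆ closure (sel (e (Nat.unpair n).1) n) := by
    intro F hF
    have h1 : ((hF.toFinset.filter (· ∈ D) : Finset X) : Set X) ⊆ D := by
      intro x hx
      simp only [Finset.coe_filter, mem_ofPred_eq] at hx
      exact hx.2
    have h2 : (hF.toFinset.filter (· ∈ D)) ∈ range e := by rw [← he]; exact h1
    obtain ⟨j, hj⟩ := h2
    set R : Finset X := hF.toFinset.filter (· ∉ D) with hR
    set x : Fin R.card → X := fun i => (R.equivFin.symm i : X) with hx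
    have hxi : Function.Injective x := fun a a' haa' =>
      R.equivFin.symm.injective (Subtype.ext haa')
    have hxR : ∀ i, x i ∈ R := fun i => (R.equivFin.symm i).2
    have hxG : x ∈ G (e j) j R.card := by
      by_contra hcon
      obtain ⟨i, hi⟩ := hCm _ _ _ x hcon hxi
      have h3 : x i ∉ D := (Finset.mem_filter.1 (hxR i)).2
      refine h3 (hD (e j) (by rw [hj]; exact h1) ?_)
      exact mem_iUnion.2 ⟨j, mem_iUnion.2 ⟨R.card, hi⟩⟩
    obtain ⟨m, hm⟩ := mem_iUnion.1 hxG
    refine ⟨Nat.pair j m, ?_⟩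
    have hj' : (Nat.unpair (Nat.pair j m)).1 = j := by rw [Nat.unpair_pair]
    rw [hj']
    intro f hf
    by_cases hfD : f ∈ D
    · apply hsel2 (e j) (Nat.pair j m)
      rw [hj]
      simp only [Finset.coe_filter, mem_ofPred_eq, Finite.mem_toFinset]
      exact ⟨hf, hfD⟩
    · apply subset_closure
      have hfR : f ∈ R := by
        rw [hR, Finset.mem_filter]
        exact ⟨by simpa using hf, hfD⟩
      have := hm (R.equivFin ⟨f, hfR⟩)
      simpa [hx] using this
  refine ⟨fun n => sel (e (Nat.unpair n).1) n, fun n => hsel1 _ _, ?_, ?_, ?_, ?_⟩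
  · rintro _ ⟨n, rfl⟩
    exact (h𝒰 n).1 _ (hsel1 _ _)
  · rw [eq_univ_iff_forall]
    intro x
    obtain ⟨n, hn⟩ := hcov {x} (finite_singleton x)
    exact mem_biUnion (mem_range_self n) (hn rfl)
  · rintro _ ⟨n, rfl⟩
    exact (h𝒰 n).2.2.1 _ (hsel1 _ _)
  · intro F hF
    obtain ⟨n, hn⟩ := hcov F hF
    exact ⟨_, mem_range_self n, hn⟩

/-- The strong Lusin property is hereditary. -/
theorem StronglyLusin.subspace (h : StronglyLusin X) (Y : Set X) : StronglyLusin Y := by
  intro k M hM
  have hind : Topology.IsInducing (fun x : Fin k → Y => fun i => (x i : X)) :=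
    Topology.IsInducing.piMap fun _ => Topology.IsInducing.subtypeVal
  obtain ⟨C, hC, hC'⟩ := h k _ (hind.isMeagre_image hM)
  refine ⟨(fun x : Y => (x : X)) ⁻¹' C, hC.preimage Subtype.val_injective, ?_⟩
  intro x hx hxi
  obtain ⟨i, hi⟩ := hC' _ (mem_image_of_mem _ hx) fun a a' haa' => hxi (Subtype.ext haa')
  exact ⟨i, hi⟩

theorem S1KOmega.lindelof (h : S1KOmega X) : KOmegaLindelof X := by
  intro 𝒰 h𝒰
  obtain ⟨U, hU, hU'⟩ := h (fun _ => 𝒰) fun _ => h𝒰
  exact ⟨range U, by rintro _ ⟨n, rfl⟩; exact hU n, countable_range U, hU'⟩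

end Pool.Agent.Helper85.Lusin
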