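import Pool.Agent.Helper85.Lusin.Cofinal
import Pool.Agent.Helper85.Lusin.Select
import Pool.Agent.Helper85.Lusin.CovM2

open Set TopologicalSpace Filter Topology

namespace Pool.Agent.Helper85.Lusin

/-- The closed nowhere dense forms of the strong Lusin property give the property itself. -/
theorem stronglyLusin_of_slk {X : Type*} [TopologicalSpace X] (hk : ∀ k, SLk X k) :
    StronglyLusin X := by
  classical
  intro k M hM
  obtain ⟨S, hS, hSc, hMS⟩ := isMeagre_iff_countable_union_isNowhereDense.1 hM
  have : ∀ t : Set (Fin k → X), ∃ C : Set X, C.Countable ∧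
      (t ∈ S → ∀ x ∈ t, Function.Injective x → ∃ i, x i ∈ C) := by
    intro t
    by_cases ht : t ∈ S
    · obtain ⟨C, hC, hC'⟩ := hk k (closure t) isClosed_closure (hS t ht).closure
      exact ⟨C, hC, fun _ x hx hxi => hC' x (subset_closure hx) hxi⟩
    · exact ⟨∅, countable_empty, fun h => absurd h ht⟩
  choose C hCc hCm using this
  refine ⟨⋃ t ∈ S, C t, hSc.biUnion fun t _ => hCc t, ?_⟩
  intro x hx hxi
  obtain ⟨t, ht, hxt⟩ := hMS hx
  obtain ⟨i, hi⟩ := hCm t ht x hxt hxi
  exact ⟨i, mem_biUnion ht hi⟩

variable {X : Type*} [TopologicalSpace X]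

/-- The transfinite construction of a strongly Lusin subset along a well-ordered set `W` with
countable initial segments, from a dominating family indexed by `W`. -/
theorem exists_strongly_lusin_subset [SecondCountableTopology X] [T2Space X] [Uncountable X]
    (hL : ∀ M : Set X, IsMeagre M → M.Countable)
    (hinf : ∀ O : Set X, IsOpen O → O.Nonempty → O.Infinite)
    {W : Type*} [LinearOrder W] [WellFoundedLT W] [Uncountable W]
    (hW : ∀ w : W, (Iic w).Countable)
    {d : W → ℕ → ℕ} (hd : ∀ h : ℕ → ℕ, ∃ w, ∀ᶠ n in atTop, h n ≤ d w n)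
    {xw : W → X} (hxw : Function.Injective xw) :
    ∃ y : W → X, Function.Injective y ∧ ∀ (k : ℕ) (M : Set (Fin k → X)), IsClosed M →
      IsNowhereDense M → ∃ C : Set X, C.Countable ∧
        ∀ x ∈ M, (∀ i, x i ∈ range y) → Function.Injective x → ∃ i, x i ∈ C := by
  classical
  have hne : Nonempty X := inferInstance
  obtain ⟨x0⟩ := id hne
  obtain ⟨g, -, hg⟩ := exists_coding hinf
  -- bases of the finite powers
  have hbas : ∀ k : ℕ, ∃ b : ℕ → Set (Fin k → X), (∀ n, IsOpen (b n)) ∧ (∀ n, (b n).Nonempty) ∧
      ∀ V : Set (Fin k → X), IsOpen V → V.Nonempty → ∃ n, b n ⊆ V :=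
    fun k => exists_enum_basis (Fin k → X)
  choose b hbo hbn hbpi using hbas
  obtain ⟨v, hvo, hvn, hvpi⟩ := exists_enum_basis X
  -- the members of the cofinal family
  set N : (k : ℕ) → W → W → ℕ → Set (Fin k → X) := fun k β γ n =>
    Mem (b k) (g (xw β)) (d γ) n with hN
  have hNc : ∀ k β γ n, IsClosed (N k β γ n) := fun k β γ n => isClosed_Mem (hbo k) _ _ _
  have hNn : ∀ k β γ n, IsNowhereDense (N k β γ n) := fun k β γ n =>
    isNowhereDense_Mem (hbo k) (hbn k) (hbpi k) _ _ _
  have hcap : ∀ (k : ℕ) (M : Set (Fin k → X)), IsClosed M → IsNowhereDense M →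
      ∃ β γ n, M ⊆ N k β γ n := by
    intro k M hM hMn
    have h1 := hL _ (captured hg (hbo k) (hbn k) (hbpi k) hd hM hMn)
    have h2 : ∃ β : W, xw β ∉ {x | ¬ ∃ w n0, M ⊆ Mem (b k) (g x) (d w) n0} := by
      by_contra hcon
      have h3 : (univ : Set W).Countable := by
        refine (h1.preimage hxw).mono ?_
        intro w _
        by_contra hw
        exact hcon ⟨w, hw⟩
      exact not_countable (α := W) (countable_univ_iff.1 h3)
    obtain ⟨β, hβ⟩ := h2
    simp only [mem_ofPred_eq, not_not] at hβ
    obtain ⟨γ, n, hn⟩ := hβ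
    exact ⟨β, γ, n, hn⟩
  -- slices and bad sets
  set sl : (k : ℕ) → W → W → ℕ → Fin (k + 1) → (Fin (k + 1) → X) → Set X :=
    fun k β γ n i h => {a | Function.update h i a ∈ N (k + 1) β γ n} with hsl
  set Bad : Set X → Set W → Set X := fun S T => S ∪ ⋃ β ∈ T, ⋃ γ ∈ T, ⋃ n : ℕ, ⋃ k : ℕ,
    ⋃ i : Fin (k + 1), ⋃ h ∈ (Set.pi univ fun _ : Fin (k + 1) => insert x0 S),
      (if (sl k β γ n i h).Countable then sl k β γ n i h else ∅) with hBad
  have hBadc : ∀ S T, S.Countable → T.Countable → (Bad S T).Countable := by
    intro S T hS hT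
    refine hS.union (hT.biUnion fun β _ => hT.biUnion fun γ _ => countable_iUnion fun n =>
      countable_iUnion fun k => countable_iUnion fun i =>
      (Set.countable_univ_pi fun _ => hS.insert x0).biUnion fun h _ => ?_)
    split_ifs with hc
    · exact hc
    · exact countable_empty
  have hpt : ∀ S T, S.Countable → T.Countable → ∃ a, a ∉ Bad S T := by
    intro S T hS hT
    by_contra hcon
    push Not at hcon
    exact not_countable (α := X) (countable_univ_iff.1 ((hBadc S T hS hT).mono fun a _ => hcon a))
  let pt : Set X → Set W → X := fun S T =>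
    if h : S.Countable ∧ T.Countable then (hpt S T h.1 h.2).choose else x0
  have hpts : ∀ S T, S.Countable → T.Countable → pt S T ∉ Bad S T := by
    intro S T hS hT
    simp only [pt]
    rw [dif_pos ⟨hS, hT⟩]
    exact (hpt S T hS hT).choose_spec
  -- the recursion
  let F : (w : W) → ((δ : W) → δ < w → X) → X := fun w ih =>
    pt {a | ∃ δ, ∃ h : δ < w, a = ih δ h} (Iic w)
  let y : W → X := (wellFounded_lt (α := W)).fix F
  have hy : ∀ w, y w = pt (y '' Iio w) (Iic w) := by
    intro w
    have h1 : y w = F w (fun δ _ => y δ) := (wellFounded_lt (α := W)).fix_eq F w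
    rw [h1]
    simp only [F]
    congr 1
    ext a
    constructor
    · rintro ⟨δ, hδ, rfl⟩
      exact ⟨δ, hδ, rfl⟩
    · rintro ⟨δ, hδ, rfl⟩
      exact ⟨δ, hδ, rfl⟩
  have hIio : ∀ w : W, (Iio w).Countable := fun w => (hW w).mono Iio_subset_Iic_self
  have hyb : ∀ w, y w ∉ Bad (y '' Iio w) (Iic w) := by
    intro w
    rw [hy w]
    have h1 : (y '' Iio w).Countable := (hIio w).image _
    have := hpts (y '' Iio w) (Iic w) h1 (hW w)
    exact this
  have hyn : ∀ w, ∀ δ < w, y w ≠ y δ := by
    intro w δ hδ h
    exact hyb w (Or.inl ⟨δ, hδ, h.symm⟩)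
  have hyinj : Function.Injective y := by
    intro w w' h
    rcases lt_trichotomy w w' with h1 | h1 | h1
    · exact absurd h.symm (hyn w' w h1)
    · exact h1
    · exact absurd h (hyn w w' h1)
  refine ⟨y, hyinj, ?_⟩
  intro k
  induction k with
  | zero =>
    intro M hM hMn
    refine ⟨∅, countable_empty, ?_⟩
    intro x hx
    exfalso
    have hMu : M = univ := by
      rw [eq_univ_iff_forall]
      intro z
      rwa [Subsingleton.elim z x]
    rw [hM.isNowhereDense_iff, hMu, interior_univ] at hMn
    have : x ∈ (univ : Set (Fin 0 → X)) := mem_univ x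
    rw [hMn] at this
    exact this
  | succ k ih =>
    intro M hM hMn
    obtain ⟨β, γ, n, hMN⟩ := hcap (k + 1) M hM hMn
    -- sector sets
    set P : Fin (k + 1) → ℕ → Set (Fin k → X) :=
      fun i l => {z | ∀ a ∈ v l, (i.insertNth a z : Fin (k + 1) → X) ∈ N (k + 1) β γ n} with hP
    have hPc : ∀ i l, IsClosed (P i l) := by
      intro i l
      have : P i l = ⋂ a ∈ v l,
          (fun z : Fin k → X => (i.insertNth a z : Fin (k + 1) → X)) ⁻¹' N (k + 1) β γ n := by
        ext z; simp [hP]
      rw [this]
      refine isClosed_biInter fun a _ => (hNc _ _ _ _).preimage ?_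
      exact Continuous.finInsertNth i continuous_const continuous_id
    have hPn : ∀ i l, IsNowhereDense (P i l) := by
      intro i l
      rw [(hPc i l).isNowhereDense_iff, eq_empty_iff_forall_notMem]
      intro z hz
      have hNi : interior (N (k + 1) β γ n) = ∅ := by
        rw [← (hNc (k + 1) β γ n).isNowhereDense_iff]
        exact hNn _ _ _ _
      set S : Set (Fin (k + 1) → X) :=
        {z | z i ∈ v l ∧ (fun j => z (i.succAbove j)) ∈ interior (P i l)} with hS
      have hSo : IsOpen S := by
        have h1 : IsOpen {z : Fin (k + 1) → X | z i ∈ v l} := (hvo l).preimage (continuous_apply i)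
        have h2 : IsOpen {z : Fin (k + 1) → X | (fun j => z (i.succAbove j)) ∈ interior (P i l)} :=
          isOpen_interior.preimage (continuous_pi fun j => continuous_apply (i.succAbove j))
        exact h1.inter h2
      have hSN : S ⊆ N (k + 1) β γ n := by
        intro z hz
        have := interior_subset hz.2 (z i) hz.1
        have e : (i.insertNth (z i) (fun j => z (i.succAbove j)) : Fin (k + 1) → X) = z :=
          Fin.insertNth_self_removeNth i z
        rwa [e] at this
      obtain ⟨a, ha⟩ := hvn l
      have hzS : (i.insertNth a z : Fin (k + 1) → X) ∈ S := by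
        refine ⟨by simpa using ha, ?_⟩
        simpa using hz
      have := interior_maximal hSN hSo hzS
      rw [hNi] at this
      exact this
    have hC : ∀ (i : Fin (k + 1)) (l : ℕ), ∃ C : Set X, C.Countable ∧
        ∀ x ∈ P i l, (∀ i, x i ∈ range y) → Function.Injective x → ∃ i, x i ∈ C :=
      fun i l => ih (P i l) (hPc i l) (hPn i l)
    choose C hCc hCm using hC
    refine ⟨(⋃ i, ⋃ l, C i l) ∪ y '' Iic (max β γ), ?_, ?_⟩
    · exact (countable_iUnion fun i => countable_iUnion fun l => hCc i l).union ((hW _).image _)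
    intro x hx hxr hxi
    by_contra hcon
    push Not at hcon
    choose w hw using hxr
    have hwi : Function.Injective w := by
      intro i j hij
      apply hxi
      rw [← hw i, ← hw j, hij]
    obtain ⟨i0, -, hi0⟩ := Finset.exists_max_image (Finset.univ : Finset (Fin (k + 1))) w
      ⟨0, Finset.mem_univ 0⟩
    have hlt : ∀ j, j ≠ i0 → w j < w i0 := fun j hj =>
      lt_of_le_of_ne (hi0 j (Finset.mem_univ j)) fun h => hj (hwi h)
    have hβγ : max β γ < w i0 := by
      by_contra hle
      rw [not_lt] at hle
      exact hcon i0 (Or.inr ⟨w i0, hle, hw i0⟩)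
    -- the slice through `x` is countable
    have hslc : (sl k β γ n i0 (Function.update x i0 x0)).Countable := by
      apply hL
      apply IsNowhereDense.isMeagre
      have e1 : sl k β γ n i0 (Function.update x i0 x0) =
          {a | Function.update x i0 a ∈ N (k + 1) β γ n} := by
        ext a
        simp [hsl]
      rw [e1]
      have hcl : IsClosed {a : X | Function.update x i0 a ∈ N (k + 1) β γ n} :=
        (hNc _ _ _ _).preimage (continuous_const.update i0 continuous_id)
      rw [hcl.isNowhereDense_iff, eq_empty_iff_forall_notMem]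
      intro p hp
      obtain ⟨l, hl⟩ := hvpi _ isOpen_interior ⟨p, hp⟩
      have hl' := hl.trans interior_subset
      have hz : (fun j => x (i0.succAbove j)) ∈ P i0 l := by
        intro a ha
        have h1 : Function.update x i0 a ∈ N (k + 1) β γ n := hl' ha
        have e : (i0.insertNth a (fun j => x (i0.succAbove j)) : Fin (k + 1) → X) =
            Function.update x i0 a := Fin.insertNth_removeNth i0 a x
        rwa [e]
      obtain ⟨j, hj⟩ := hCm i0 l _ hz (fun j => ⟨w (i0.succAbove j), hw _⟩)
        (fun j j' hjj' => Fin.succAbove_right_injective (hxi hjj'))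
      exact hcon (i0.succAbove j) (Or.inl (mem_iUnion.2 ⟨i0, mem_iUnion.2 ⟨l, hj⟩⟩))
    apply hyb (w i0)
    right
    simp only [mem_iUnion]
    refine ⟨β, ((le_max_left β γ).trans hβγ.le), γ, ((le_max_right β γ).trans hβγ.le), n, k, i0,
      Function.update x i0 x0, ?_, ?_⟩
    · intro j _
      by_cases hj : j = i0
      · subst hj
        simp
      · rw [Function.update_of_ne hj]
        exact Or.inr ⟨w j, hlt j hj, hw j⟩
    · rw [if_pos hslc]
      show Function.update (Function.update x i0 x0) i0 (y (w i0)) ∈ N (k + 1) β γ n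
      rw [Function.update_idem, hw i0, Function.update_eq_self]
      exact hMN hx

end Pool.Agent.Helper85.Lusin
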