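import Pool.Agent.Helper85.Lusin.Dominating

open Set TopologicalSpace Filter Topology

universe u

namespace Pool.Agent.Helper85.Lusin

variable {X : Type u} [TopologicalSpace X]

/-- A dominating family of size at most `ℵ₁` and a Lusin set `X` give a strongly Lusin subset of
`X` which is again a Lusin set. -/
theorem exists_strongly_lusin [SecondCountableTopology X] [T2Space X] (hX : IsLusin X)
    {D : Set (ℕ → ℕ)} (hD : Cardinal.mk D ≤ Cardinal.aleph 1)
    (hdom : ∀ g : ℕ → ℕ, ∃ d ∈ D, ∀ᶠ n in atTop, g n ≤ d n) :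
    ∃ Y : Set X, IsLusin Y ∧ StronglyLusin Y := by
  classical
  obtain ⟨O, hO, hOc, hOn, hunc⟩ := exists_big_part hX
  have hOne : Nonempty O := hOn.to_subtype
  have hOunc : Uncountable O := by
    rw [← not_countable_iff]
    intro h
    exact hunc O hO subset_rfl hOn h
  have hinf : ∀ V : Set O, IsOpen V → V.Nonempty → V.Infinite := by
    intro V hV hVn hVf
    refine hunc ((fun x : O => (x : X)) '' V) (hO.isOpenMap_subtype_val _ hV) ?_ (hVn.image _)
      (hVf.image _).countable
    rintro _ ⟨x, -, rfl⟩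
    exact x.2
  have hLO : ∀ M : Set O, IsMeagre M → M.Countable := by
    intro M hM
    apply countable_of_image_val
    exact hX.2 _ (Topology.IsInducing.subtypeVal.isMeagre_image hM)
  -- the index set
  let W : Type := (Cardinal.aleph 1).ord.ToType
  have hWmk : Cardinal.mk W = Cardinal.aleph 1 := Cardinal.mk_ord_toType _
  have hWunc : Uncountable W := by
    rw [← Cardinal.aleph0_lt_mk_iff, hWmk]
    exact Cardinal.aleph0_lt_aleph_one
  have hWI : ∀ w : W, (Iic w).Countable := by
    intro w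
    have h1 : Cardinal.mk (Iio w) < Cardinal.mk W := by
      apply Cardinal.mk_Iio_lt w
      rw [hWmk]
      simp [W]
    rw [hWmk, Cardinal.lt_aleph_one_iff, Cardinal.le_aleph0_iff_set_countable] at h1
    rw [← Iio_union_right]
    exact h1.union (countable_singleton w)
  obtain ⟨e⟩ : Nonempty (D ↪ W) := by
    rw [← Cardinal.le_def, hWmk]
    exact hD
  obtain ⟨d0, hd0, -⟩ := hdom 0
  have hDne : Nonempty D := ⟨⟨d0, hd0⟩⟩
  have hd : ∀ h : ℕ → ℕ, ∃ w : W, ∀ᶠ n in atTop, h n ≤ ((Function.invFun e w : D) : ℕ → ℕ) n := by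
    intro h
    obtain ⟨d, hdD, hdh⟩ := hdom h
    refine ⟨e ⟨d, hdD⟩, ?_⟩
    rw [Function.leftInverse_invFun e.injective]
    exact hdh
  obtain ⟨xw⟩ : Nonempty (W ↪ O) := by
    rw [← Cardinal.lift_mk_le', hWmk]
    have : Cardinal.aleph 1 ≤ Cardinal.mk O := by
      rw [Cardinal.aleph_one_le_iff, Cardinal.aleph0_lt_mk_iff]
      exact hOunc
    simpa using this
  obtain ⟨y, hyinj, hy⟩ := exists_strongly_lusin_subset hLO hinf hWI hd xw.injective
  set Y : Set X := (fun x : O => (x : X)) '' range y with hY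
  have hYO : Y ⊆ O := by
    rintro _ ⟨x, -, rfl⟩
    exact x.2
  have hYr : ∀ x : Y, (⟨x, hYO x.2⟩ : O) ∈ range y := by
    rintro ⟨_, ⟨x, hx, rfl⟩⟩
    exact hx
  refine ⟨Y, ⟨?_, ?_⟩, ?_⟩
  · have hinj : Function.Injective (fun w : W => (⟨(y w : X), ⟨y w, ⟨w, rfl⟩, rfl⟩⟩ : Y)) := by
      intro w w' h
      have h1 : ((y w : O) : X) = y w' := congrArg (fun z : Y => (z : X)) h
      exact hyinj (Subtype.ext h1)
    exact hinj.uncountable
  · intro M hM
    apply countable_of_image_val
    exact hX.2 _ (Topology.IsInducing.subtypeVal.isMeagre_image hM)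
  · apply stronglyLusin_of_slk
    intro k M hM hMn
    have hind : Topology.IsInducing (fun x : Fin k → Y => fun i => (⟨x i, hYO (x i).2⟩ : O)) :=
      Topology.IsInducing.piMap fun _ => (Topology.IsEmbedding.inclusion hYO).isInducing
    have h1 : IsNowhereDense ((fun x : Fin k → Y => fun i => (⟨x i, hYO (x i).2⟩ : O)) '' M) :=
      hind.isNowhereDense_image hMn
    obtain ⟨C, hC, hCm⟩ := hy k _ isClosed_closure h1.closure
    refine ⟨{c : Y | (⟨c, hYO c.2⟩ : O) ∈ C}, ?_, ?_⟩
    · exact hC.preimage (f := fun c : Y => (⟨c, hYO c.2⟩ : O)) fun c c' h =>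
        Subtype.ext (congrArg (fun z : O => (z : X)) h)
    · intro x hx hxi
      obtain ⟨i, hi⟩ := hCm _ (subset_closure (mem_image_of_mem _ hx)) (fun i => hYr (x i))
        (fun i j hij => hxi (Subtype.ext (congrArg (fun z : O => (z : X)) hij)))
      exact ⟨i, hi⟩

end Pool.Agent.Helper85.Lusin
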